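import Mathlib
set_option autoImplicit false

/-!
# A polytope in which short monotone paths are satisfying assignments

`σ j i ∈ {-1, 0, 1}` tells whether the variable `i` occurs in clause `j`, and with which sign.
-/

namespace Pool.Agent.X239.GP

open Set

abbrev Idx (n m : ℕ) := (Fin n × Fin 2) ⊕ (Fin m × Fin 2)

variable {n m : ℕ} {σ : Fin m → Fin n → ℤ} {M : ℕ}

/-- the difference of clause `j` -/
def dd (σ : Fin m → Fin n → ℤ) (x : Fin n × Fin 2 → ℝ) (j : Fin m) : ℝ :=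
  ∑ i, (σ j i : ℝ) * (x (i, 0) - x (i, 1))

/-- the gate of clause `j` -/
noncomputable def gg (σ : Fin m → Fin n → ℤ) (x : Fin n × Fin 2 → ℝ) (j : Fin m) : ℝ :=
  (1 + dd σ x j) / 2

/-- the order polytope -/
structure InX (x : Fin n × Fin 2 → ℝ) : Prop where
  nonneg : ∀ k, 0 ≤ x k
  le_one : ∀ (i : Fin n) (s : Fin 2), (i : ℕ) = 0 → x (i, s) ≤ 1
  anti : ∀ (i i' : Fin n) (s s' : Fin 2), (i' : ℕ) = i + 1 → x (i', s') ≤ x (i, s)

/-- the constraints of a block -/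
def Blk (M : ℕ) (g y1 y2 : ℝ) : Prop :=
  (∀ r : ℕ, r < M → ∀ s : ℝ, s = 1 ∨ s = -1 →
    s * (2 * r + 1) * (y1 - M) - y2 + (r * (r + 1) + 1) * g ≤ r * (r + 1)) ∧
  y2 + ((M : ℝ) ^ 2 - 1) * g ≤ (M : ℝ) ^ 2

/-- the polytope -/
def PG (σ : Fin m → Fin n → ℤ) (M : ℕ) : Set (Idx n m → ℝ) :=
  {z | InX (fun k => z (Sum.inl k)) ∧ (∀ k, 0 ≤ z (Sum.inr k)) ∧
    ∀ j, Blk M (gg σ (fun k => z (Sum.inl k)) j) (z (Sum.inr (j, 0))) (z (Sum.inr (j, 1)))}

/-! ### Gates -/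

theorem dd_add (x y : Fin n × Fin 2 → ℝ) (j : Fin m) : dd σ (x + y) j = dd σ x j + dd σ y j := by
  unfold dd
  rw [← Finset.sum_add_distrib]
  refine Finset.sum_congr rfl fun i _ => ?_
  simp only [Pi.add_apply]
  ring

theorem InX.le_one' {x : Fin n × Fin 2 → ℝ} (h : InX x) (k : Fin n × Fin 2) : x k ≤ 1 := by
  obtain ⟨⟨i, hi⟩, s⟩ := k
  induction i generalizing s with
  | zero => exact h.le_one _ _ rfl
  | succ i ih => exact (h.anti ⟨i, by omega⟩ ⟨i + 1, hi⟩ s s rfl).trans (ih s (by omega))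

/-- the coordinates with natural numbers as levels -/
def xN (x : Fin n × Fin 2 → ℝ) (i : ℕ) (s : Fin 2) : ℝ := if h : i < n then x (⟨i, h⟩, s) else 0

theorem xN_nonneg {x : Fin n × Fin 2 → ℝ} (h : InX x) (i : ℕ) (s : Fin 2) : 0 ≤ xN x i s := by
  unfold xN
  split_ifs with hi
  · exact h.nonneg _
  · exact le_rfl

theorem xN_anti {x : Fin n × Fin 2 → ℝ} (h : InX x) (i : ℕ) (s s' : Fin 2) :
    xN x (i + 1) s' ≤ xN x i s := by
  by_cases hi : i + 1 < n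
  · unfold xN
    rw [dif_pos hi, dif_pos (by omega)]
    exact h.anti _ _ _ _ rfl
  · rw [xN, dif_neg hi]
    exact xN_nonneg h _ _

theorem xN_zero {x : Fin n × Fin 2 → ℝ} (h : InX x) (s : Fin 2) : xN x 0 s ≤ 1 := by
  unfold xN
  split_ifs with hi
  · exact h.le_one _ _ rfl
  · exact zero_le_one

theorem sum_prefix {x : Fin n × Fin 2 → ℝ} (h : InX x) (k : ℕ) :
    ∑ i ∈ Finset.range k, |xN x i 0 - xN x i 1| + max (xN x k 0) (xN x k 1) ≤ 1 := by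
  induction k with
  | zero => simp [xN_zero h]
  | succ k ih =>
    rw [Finset.sum_range_succ]
    have h1 : max (xN x (k + 1) 0) (xN x (k + 1) 1) ≤ min (xN x k 0) (xN x k 1) :=
      max_le (le_min (xN_anti h _ _ _) (xN_anti h _ _ _)) (le_min (xN_anti h _ _ _) (xN_anti h _ _ _))
    have h2 : |xN x k 0 - xN x k 1| = max (xN x k 0) (xN x k 1) - min (xN x k 0) (xN x k 1) := by
      rcases le_total (xN x k 0) (xN x k 1) with h3 | h3
      · rw [max_eq_right h3, min_eq_left h3, abs_of_nonpos (by linarith)]; ring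
      · rw [max_eq_left h3, min_eq_right h3, abs_of_nonneg (by linarith)]
    linarith

theorem sum_abs_le {x : Fin n × Fin 2 → ℝ} (h : InX x) : ∑ i, |x (i, 0) - x (i, 1)| ≤ 1 := by
  have h1 := sum_prefix h n
  have h2 : ∑ i, |x (i, 0) - x (i, 1)| = ∑ i ∈ Finset.range n, |xN x i 0 - xN x i 1| := by
    rw [← Fin.sum_univ_eq_sum_range]
    refine Finset.sum_congr rfl fun i _ => ?_
    unfold xN
    rw [dif_pos i.2, dif_pos i.2]
  have h3 : 0 ≤ max (xN x n 0) (xN x n 1) := le_max_of_le_left (xN_nonneg h _ _)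
  linarith

theorem abs_dd_le (hσ : ∀ j i, |σ j i| ≤ 1) {x : Fin n × Fin 2 → ℝ} (h : InX x) (j : Fin m) :
    |dd σ x j| ≤ 1 := by
  refine le_trans ?_ (sum_abs_le h)
  unfold dd
  refine (Finset.abs_sum_le_sum_abs _ _).trans (Finset.sum_le_sum fun i _ => ?_)
  rw [abs_mul]
  have h1 : |(σ j i : ℝ)| ≤ 1 := by exact_mod_cast hσ j i
  have h2 := abs_nonneg (x (i, 0) - x (i, 1))
  nlinarith

theorem gg_mem (hσ : ∀ j i, |σ j i| ≤ 1) {x : Fin n × Fin 2 → ℝ} (h : InX x) (j : Fin m) :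
    0 ≤ gg σ x j ∧ gg σ x j ≤ 1 := by
  have h1 := abs_le.1 (abs_dd_le hσ h j)
  unfold gg
  constructor <;> linarith [h1.1, h1.2]

theorem gg_add (x y : Fin n × Fin 2 → ℝ) (j : Fin m) {x' y' : Fin n × Fin 2 → ℝ}
    (h : x + y = x' + y') : gg σ x j + gg σ y j = gg σ x' j + gg σ y' j := by
  have h1 := dd_add (σ := σ) x y j
  have h2 := dd_add (σ := σ) x' y' j
  rw [h] at h1
  unfold gg
  linarith

/-! ### Blocks -/

theorem blk_mix {g q1 q2 : ℝ} (h0 : g ≤ 1) (hq : Blk M 0 q1 q2) :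
    Blk M g ((1 - g) * q1 + g * M) ((1 - g) * q2 + g) := by
  obtain ⟨h1, h2⟩ := hq
  refine ⟨fun r hr s hs => ?_, ?_⟩
  · have h3 := h1 r hr s hs
    have h4 := mul_le_mul_of_nonneg_left h3 (sub_nonneg.2 h0)
    linarith
  · have h4 := mul_le_mul_of_nonneg_left h2 (sub_nonneg.2 h0)
    linarith

theorem blk_one {y1 y2 : ℝ} (hM : 0 < M) (h : Blk M 1 y1 y2) : y1 = M ∧ y2 = 1 := by
  obtain ⟨h1, h2⟩ := h
  have h3 := h1 0 hM 1 (Or.inl rfl)
  have h4 := h1 0 hM (-1) (Or.inr rfl)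
  simp only [Nat.cast_zero] at h3 h4
  constructor <;> linarith

theorem exists_mix {g y1 y2 : ℝ} (hM : 0 < M) (h0 : g ≤ 1) (h : Blk M g y1 y2) :
    ∃ q1 q2 : ℝ, Blk M 0 q1 q2 ∧ y1 = (1 - g) * q1 + g * M ∧ y2 = (1 - g) * q2 + g := by
  rcases h0.eq_or_lt with rfl | hlt
  · obtain ⟨rfl, rfl⟩ := blk_one hM h
    refine ⟨M, 1, ⟨fun r hr s hs => ?_, ?_⟩, by ring, by ring⟩
    · have : (0 : ℝ) ≤ r * (r + 1) := by positivity
      linarith
    · have : (1 : ℝ) ≤ (M : ℝ) := by exact_mod_cast hM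
      nlinarith
  · have hp : 0 < 1 - g := by linarith
    refine ⟨(y1 - g * M) / (1 - g), (y2 - g) / (1 - g), ⟨fun r hr s hs => ?_, ?_⟩, ?_, ?_⟩
    · have h1 := h.1 r hr s hs
      have e : s * (2 * r + 1) * ((y1 - g * M) / (1 - g) - M) - (y2 - g) / (1 - g) +
          (r * (r + 1) + 1) * 0 = (s * (2 * r + 1) * (y1 - M) - (y2 - g)) / (1 - g) := by
        field_simp
        ring
      rw [e, div_le_iff₀ hp]
      linarith
    · have h1 := h.2
      rw [mul_zero, add_zero, div_le_iff₀ hp]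
      linarith
    · field_simp
      ring
    · field_simp
      ring

theorem blk_conv {q1 q2 q1' q2' a b : ℝ} (ha : 0 ≤ a) (hb : 0 ≤ b) (hab : 0 < a + b)
    (h : Blk M 0 q1 q2) (h' : Blk M 0 q1' q2') :
    Blk M 0 ((a * q1 + b * q1') / (a + b)) ((a * q2 + b * q2') / (a + b)) := by
  refine ⟨fun r hr s hs => ?_, ?_⟩
  · have h1 := mul_le_mul_of_nonneg_left (h.1 r hr s hs) ha
    have h2 := mul_le_mul_of_nonneg_left (h'.1 r hr s hs) hb
    have e : s * (2 * r + 1) * ((a * q1 + b * q1') / (a + b) - M) - (a * q2 + b * q2') / (a + b) +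
        (r * (r + 1) + 1) * 0 = (a * (s * (2 * r + 1) * (q1 - M) - q2) +
          b * (s * (2 * r + 1) * (q1' - M) - q2')) / (a + b) := by
      field_simp
      ring
    rw [e, div_le_iff₀ hab]
    linarith
  · have h1 := mul_le_mul_of_nonneg_left h.2 ha
    have h2 := mul_le_mul_of_nonneg_left h'.2 hb
    rw [mul_zero, add_zero, div_le_iff₀ hab]
    linarith

/-- Given two points with gates `g`, `g'` there is a common point `q` for both. -/
theorem exists_common {g y1 y2 g' y1' y2' : ℝ} (hM : 0 < M) (h0 : g ≤ 1) (h : Blk M g y1 y2)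
    (h0' : g' ≤ 1) (h' : Blk M g' y1' y2') :
    ∃ q1 q2 : ℝ, Blk M 0 q1 q2 ∧ y1 + y1' = (2 - (g + g')) * q1 + (g + g') * M ∧
      y2 + y2' = (2 - (g + g')) * q2 + (g + g') := by
  obtain ⟨q1, q2, hq, e1, e2⟩ := exists_mix hM h0 h
  obtain ⟨q1', q2', hq', e1', e2'⟩ := exists_mix hM h0' h'
  by_cases hs : 0 < (1 - g) + (1 - g')
  · refine ⟨_, _, blk_conv (sub_nonneg.2 h0) (sub_nonneg.2 h0') hs hq hq', ?_, ?_⟩
    · rw [e1, e1', show (2 - (g + g')) = (1 - g) + (1 - g') by ring, mul_div_cancel₀ _ hs.ne']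
      ring
    · rw [e2, e2', show (2 - (g + g')) = (1 - g) + (1 - g') by ring, mul_div_cancel₀ _ hs.ne']
      ring
  · have hg : g = 1 := by linarith
    have hg' : g' = 1 := by linarith
    subst hg; subst hg'
    refine ⟨q1, q2, hq, ?_, ?_⟩
    · rw [e1, e1']; ring
    · rw [e2, e2']; ring

theorem blk_nonneg {g y1 y2 : ℝ} (hM : 0 < M) (hg : 0 ≤ g) (h : Blk M g y1 y2) :
    0 ≤ y1 ∧ 0 ≤ y2 ∧ y2 ≤ (M : ℝ) ^ 2 := by
  obtain ⟨h1, h2⟩ := h
  have hM1 : (1 : ℝ) ≤ (M : ℝ) := by exact_mod_cast hM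
  have h3 := h1 0 hM 1 (Or.inl rfl)
  have h4 := h1 0 hM (-1) (Or.inr rfl)
  have h5 := h1 (M - 1) (by omega) (-1) (Or.inr rfl)
  rw [Nat.cast_sub (show 1 ≤ M by omega)] at h5
  simp only [Nat.cast_zero] at h3 h4
  simp only [Nat.cast_one] at h5
  have h6 : (0 : ℝ) ≤ (2 * M - 1) * (y1 - M * g) := by nlinarith
  have h7 : (0 : ℝ) ≤ y1 - M * g := by
    by_contra hc
    have : (2 * (M : ℝ) - 1) * (y1 - M * g) < 0 := mul_neg_of_pos_of_neg (by linarith) (by linarith)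
    linarith
  have h8 : (0 : ℝ) ≤ ((M : ℝ) ^ 2 - 1) * g := mul_nonneg (by nlinarith) hg
  exact ⟨by nlinarith, by linarith, by linarith⟩

/-! ### Lifting -/

/-- Splitting of the sum of two points of the polytope, with prescribed first parts. -/
theorem lift (hM : 0 < M) (hσ : ∀ j i, |σ j i| ≤ 1) {z z' : Idx n m → ℝ} (hz : z ∈ PG σ M)
    (hz' : z' ∈ PG σ M) {ξ ξ' : Fin n × Fin 2 → ℝ} (hξ : InX ξ) (hξ' : InX ξ')
    (h : ∀ k, ξ k + ξ' k = z (Sum.inl k) + z' (Sum.inl k)) :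
    ∃ w ∈ PG σ M, ∃ w' ∈ PG σ M, (∀ k, w (Sum.inl k) = ξ k) ∧ w + w' = z + z' := by
  set x : Fin n × Fin 2 → ℝ := fun k => z (Sum.inl k) with hx
  set x' : Fin n × Fin 2 → ℝ := fun k => z' (Sum.inl k) with hx'
  have hc : ∀ j, ∃ q : ℝ × ℝ, Blk M 0 q.1 q.2 ∧
      z (Sum.inr (j, 0)) + z' (Sum.inr (j, 0)) =
        (2 - (gg σ x j + gg σ x' j)) * q.1 + (gg σ x j + gg σ x' j) * M ∧
      z (Sum.inr (j, 1)) + z' (Sum.inr (j, 1)) =
        (2 - (gg σ x j + gg σ x' j)) * q.2 + (gg σ x j + gg σ x' j) := by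
    intro j
    obtain ⟨q1, q2, h1, h2, h3⟩ := exists_common hM (gg_mem hσ hz.1 j).2 (hz.2.2 j)
      (gg_mem hσ hz'.1 j).2 (hz'.2.2 j)
    exact ⟨(q1, q2), h1, h2, h3⟩
  choose q hq1 hq2 hq3 using hc
  have hg : ∀ j, gg σ ξ j + gg σ ξ' j = gg σ x j + gg σ x' j := fun j =>
    gg_add _ _ j (funext fun k => h k)
  let mk : (Fin n × Fin 2 → ℝ) → Idx n m → ℝ := fun ζ => Sum.elim ζ fun p =>
    if p.2 = 0 then (1 - gg σ ζ p.1) * (q p.1).1 + gg σ ζ p.1 * M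
    else (1 - gg σ ζ p.1) * (q p.1).2 + gg σ ζ p.1
  have hmk : ∀ ζ, InX ζ → mk ζ ∈ PG σ M := by
    intro ζ hζ
    have hb : ∀ j, Blk M (gg σ ζ j) ((1 - gg σ ζ j) * (q j).1 + gg σ ζ j * M)
        ((1 - gg σ ζ j) * (q j).2 + gg σ ζ j) := fun j => blk_mix (gg_mem hσ hζ j).2 (hq1 j)
    refine ⟨hζ, ?_, fun j => ?_⟩
    · rintro ⟨j, s⟩
      have h1 := blk_nonneg hM (gg_mem hσ hζ j).1 (hb j)
      fin_cases s
      · exact h1.1
      · exact h1.2.1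
    · exact hb j
  refine ⟨mk ξ, hmk _ hξ, mk ξ', hmk _ hξ', fun k => rfl, ?_⟩
  funext p
  rcases p with k | ⟨j, s⟩
  · exact h k
  · have h1 := hq2 j
    have h2 := hq3 j
    have h3 := hg j
    rw [← h3] at h1 h2
    fin_cases s
    · change ((1 - gg σ ξ j) * (q j).1 + gg σ ξ j * M) + ((1 - gg σ ξ' j) * (q j).1 + gg σ ξ' j * M)
        = z (Sum.inr (j, 0)) + z' (Sum.inr (j, 0))
      rw [h1]; ring
    · change ((1 - gg σ ξ j) * (q j).2 + gg σ ξ j) + ((1 - gg σ ξ' j) * (q j).2 + gg σ ξ' j)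
        = z (Sum.inr (j, 1)) + z' (Sum.inr (j, 1))
      rw [h2]; ring

end Pool.Agent.X239.GP
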