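import Pool.Agent.X239.GP.Up
import Pool.Agent.NPC.Sat2
set_option autoImplicit false

/-!
# The linear program of a formula
-/

namespace Pool.Agent.X239.GP

open Set
open Pool.Agent.NPC (Lit Distinct3 Bounded3 SAT3)

/-- clauses -/
abbrev Cl : Type := Lit ℕ × Lit ℕ × Lit ℕ

/-- signs -/
def sgn (b : Bool) : ℤ := if b = true then 1 else -1

/-- the sign of the variable `i` in a clause -/
def sg (c : Cl) (i : ℕ) : ℤ :=
  if c.1.2 = i then sgn c.1.1 else if c.2.1.2 = i then sgn c.2.1.1 else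
    if c.2.2.2 = i then sgn c.2.2.1 else 0

/-- the sign of the variable `i` in clause `j` -/
def sgf (φ : List Cl) (j i : ℕ) : ℤ := (φ[j]?).elim 0 fun c => sg c i

/-- the number of columns of the first kind -/
def n2 (φ : List Cl) : ℕ := 3 * φ.length * 2

/-- the number of columns -/
def cols (φ : List Cl) : ℕ := 3 * φ.length * 2 + φ.length * 2

/-- coefficient of a row of the first kind -/
def cX (k1 k2 k : ℕ) : ℤ := (if k = k2 then 1 else 0) - (if k = k1 then 1 else 0)

/-- coefficient of a row of the second kind -/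
def cY (φ : List Cl) (j : ℕ) (γ u1 u2 : ℤ) (k : ℕ) : ℤ :=
  if k < n2 φ then γ * sgf φ j (k / 2) * (if k % 2 = 0 then 1 else -1)
  else if k = n2 φ + 2 * j then u1 else if k = n2 φ + 2 * j + 1 then u2 else 0

/-- a row of the first kind -/
def rowX (φ : List Cl) (k1 k2 : ℕ) (b : ℤ) : List ℤ × ℤ :=
  ((List.range (cols φ)).map (cX k1 k2), b)

/-- a row of the second kind -/
def rowY (φ : List Cl) (j : ℕ) (γ u1 u2 b : ℤ) : List ℤ × ℤ :=
  ((List.range (cols φ)).map (cY φ j γ u1 u2), b)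

/-- the rows of clause `j` -/
def rowsC (φ : List Cl) (M j : ℕ) : List (List ℤ × ℤ) :=
  ((List.range M).flatMap fun r : ℕ =>
    [rowY φ j (r * (r + 1) + 1) (2 * (2 * r + 1)) (-2) (r * (r + 1) - 1 + 2 * (2 * r + 1) * M),
      rowY φ j (r * (r + 1) + 1) (-(2 * (2 * r + 1))) (-2)
        (r * (r + 1) - 1 - 2 * (2 * r + 1) * M)]) ++
  [rowY φ j ((M : ℤ) * M - 1) 0 2 ((M : ℤ) * M + 1)]

/-- all rows -/
def rows (φ : List Cl) (M : ℕ) : List (List ℤ × ℤ) :=
  ((List.range 2).map fun s => rowX φ (cols φ) s 1) ++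
  ((List.range (n2 φ - 2)).flatMap fun k => (List.range 2).map fun s =>
    rowX φ k (2 * (k / 2) + 2 + s) 0) ++
  (List.range φ.length).flatMap fun j => rowsC φ M j

/-- the sign matrix -/
def sm (φ : List Cl) (j : Fin φ.length) (i : Fin (3 * φ.length)) : ℤ := sg φ[(j : ℕ)] i

theorem sgf_eq (φ : List Cl) (j : Fin φ.length) (i : Fin (3 * φ.length)) :
    sgf φ j i = sm φ j i := by
  unfold sgf sm
  rw [List.getElem?_eq_getElem j.2]
  rfl

theorem abs_sg_le (c : Cl) (i : ℕ) : |sg c i| ≤ 1 := by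
  unfold sg sgn
  split_ifs <;> simp

theorem abs_sm_le (φ : List Cl) (j : Fin φ.length) (i : Fin (3 * φ.length)) : |sm φ j i| ≤ 1 :=
  abs_sg_le _ _

theorem sgn_cases (b : Bool) : (sgn b = 1 ∧ b = true) ∨ (sgn b = -1 ∧ b = false) := by
  cases b <;> simp [sgn]

/-- Satisfiability in terms of signs. -/
theorem sat_iff {φ : List Cl} (hd : Distinct3 φ) (hb : Bounded3 φ) :
    SAT3 φ ↔ ∃ α : Fin (3 * φ.length) → Bool, ∀ j, ∃ i,
      (sm φ j i = 1 ∧ α i = true) ∨ (sm φ j i = -1 ∧ α i = false) := by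
  constructor
  · rintro ⟨τ, hτ⟩
    refine ⟨fun i => τ i, fun j => ?_⟩
    have hm : φ[(j : ℕ)] ∈ φ := List.getElem_mem _
    have h1 := hτ _ hm
    have h2 := hb _ hm
    have h3 := hd _ hm
    unfold sm
    generalize φ[(j : ℕ)] = c at h1 h2 h3 ⊢
    rcases h1 with h | h | h
    · refine ⟨⟨c.1.2, h2.1⟩, ?_⟩
      simp only [sg, if_true, h]
      exact sgn_cases _
    · refine ⟨⟨c.2.1.2, h2.2.1⟩, ?_⟩
      simp only [sg, if_true, if_neg h3.1, h]
      exact sgn_cases _
    · refine ⟨⟨c.2.2.2, h2.2.2⟩, ?_⟩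
      simp only [sg, if_true, if_neg h3.2.1, if_neg h3.2.2, h]
      exact sgn_cases _
  · rintro ⟨α, hα⟩
    refine ⟨fun v => if h : v < 3 * φ.length then α ⟨v, h⟩ else false, fun c hc => ?_⟩
    obtain ⟨j, hj, rfl⟩ := List.getElem_of_mem hc
    obtain ⟨i, hi⟩ := hα ⟨j, hj⟩
    have key : ∀ b : Bool, (sgn b = 1 ∧ α i = true) ∨ (sgn b = -1 ∧ α i = false) → α i = b := by
      intro b hb
      cases b
      · rcases hb with ⟨h, -⟩ | ⟨-, h⟩
        · simp [sgn] at h
        · exact h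
      · rcases hb with ⟨-, h⟩ | ⟨h, -⟩
        · exact h
        · simp [sgn] at h
    have e : (fun v => if h : v < 3 * φ.length then α ⟨v, h⟩ else false) (i : ℕ) = α i :=
      dif_pos i.2
    unfold sm sg at hi
    simp only at hi
    by_cases h1 : φ[j].1.2 = i
    · left
      rw [if_pos h1] at hi
      rw [h1, e]
      exact key _ hi
    · rw [if_neg h1] at hi
      by_cases h2 : φ[j].2.1.2 = i
      · right; left
        rw [if_pos h2] at hi
        rw [h2, e]
        exact key _ hi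
      · rw [if_neg h2] at hi
        by_cases h3 : φ[j].2.2.2 = i
        · right; right
          rw [if_pos h3] at hi
          rw [h3, e]
          exact key _ hi
        · rw [if_neg h3] at hi
          rcases hi with ⟨h, -⟩ | ⟨h, -⟩ <;> simp at h

/-! ### Coordinates -/

/-- the numbering of the coordinates -/
def eq (n m : ℕ) : Idx n m ≃ Fin (n * 2 + m * 2) :=
  (Equiv.sumCongr finProdFinEquiv finProdFinEquiv).trans finSumFinEquiv

theorem eq_inl {n m : ℕ} (i : Fin n) (s : Fin 2) : (eq n m (Sum.inl (i, s)) : ℕ) = s + 2 * i := by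
  simp [eq, finProdFinEquiv]

theorem eq_inr {n m : ℕ} (j : Fin m) (s : Fin 2) :
    (eq n m (Sum.inr (j, s)) : ℕ) = n * 2 + (s + 2 * j) := by
  simp [eq, finProdFinEquiv]

/-- the coordinates, structured -/
def wz {n m : ℕ} (z : Fin (n * 2 + m * 2) → ℝ) : Idx n m → ℝ := fun p => z (eq n m p)

theorem sum_eq {n m : ℕ} (f : ℕ → ℝ) (z : Fin (n * 2 + m * 2) → ℝ) :
    ∑ k : Fin (n * 2 + m * 2), f k * z k = ∑ i : Fin n, (f (2 * i) * wz z (Sum.inl (i, 0)) +
      f (2 * i + 1) * wz z (Sum.inl (i, 1))) +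
      ∑ j : Fin m, (f (n * 2 + 2 * j) * wz z (Sum.inr (j, 0)) +
        f (n * 2 + 2 * j + 1) * wz z (Sum.inr (j, 1))) := by
  rw [← Equiv.sum_comp (eq n m), Fintype.sum_sum_type, Fintype.sum_prod_type,
    Fintype.sum_prod_type]
  simp only [Fin.sum_univ_two, eq_inl, eq_inr]
  congr 1
  · refine Finset.sum_congr rfl fun i _ => ?_
    simp only [wz, Fin.isValue, Fin.val_zero, Fin.val_one, zero_add]
    rw [add_comm 1]
  · refine Finset.sum_congr rfl fun j _ => ?_
    simp only [wz, Fin.isValue, Fin.val_zero, Fin.val_one, zero_add]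
    rw [add_comm 1, ← add_assoc]

theorem getD_row {D : ℕ} (f : ℕ → ℤ) {k : ℕ} (hk : k < D) :
    ((List.range D).map f).getD k 0 = f k := by
  rw [List.getD_eq_getElem?_getD, List.getElem?_map, List.getElem?_range hk]
  rfl

/-- the value of a row -/
def ev {D : ℕ} (r : List ℤ) (z : Fin D → ℝ) : ℝ := ∑ k : Fin D, ((r.getD k 0 : ℤ) : ℝ) * z k

theorem ev_map {D : ℕ} (f : ℕ → ℤ) (z : Fin D → ℝ) :
    ev ((List.range D).map f) z = ∑ k : Fin D, ((f k : ℤ) : ℝ) * z k := by
  unfold ev
  exact Finset.sum_congr rfl fun k _ => by rw [getD_row f k.2]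

variable {φ : List Cl} {M : ℕ}

/-- vectors -/
abbrev V (φ : List Cl) : Type := Fin (3 * φ.length * 2 + φ.length * 2) → ℝ

theorem ev_rowX (z : V φ) {k1 k2 : ℕ} (h1 : k1 < cols φ) (h2 : k2 < cols φ) (b : ℤ) :
    ev (rowX φ k1 k2 b).1 z = z ⟨k2, h2⟩ - z ⟨k1, h1⟩ := by
  unfold rowX
  rw [show cols φ = 3 * φ.length * 2 + φ.length * 2 from rfl, ev_map]
  have e : ∀ k : Fin (3 * φ.length * 2 + φ.length * 2), ((cX k1 k2 k : ℤ) : ℝ) * z k =
      (if k = ⟨k2, h2⟩ then z k else 0) - if k = ⟨k1, h1⟩ then z k else 0 := by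
    intro k
    unfold cX
    simp only [Fin.ext_iff]
    split_ifs <;> push_cast <;> ring
  rw [Finset.sum_congr rfl fun k _ => e k, Finset.sum_sub_distrib, Finset.sum_ite_eq',
    Finset.sum_ite_eq']
  simp

theorem ev_rowX' (z : V φ) {k2 : ℕ} (h2 : k2 < cols φ) (b : ℤ) :
    ev (rowX φ (cols φ) k2 b).1 z = z ⟨k2, h2⟩ := by
  unfold rowX
  rw [show cols φ = 3 * φ.length * 2 + φ.length * 2 from rfl, ev_map]
  have e : ∀ k : Fin (3 * φ.length * 2 + φ.length * 2),
      ((cX (3 * φ.length * 2 + φ.length * 2) k2 k : ℤ) : ℝ) * z k =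
      (if k = ⟨k2, h2⟩ then z k else 0) := by
    intro k
    unfold cX
    have := k.2
    simp only [Fin.ext_iff]
    rw [if_neg (show ¬ (k : ℕ) = 3 * φ.length * 2 + φ.length * 2 by omega)]
    split_ifs <;> push_cast <;> ring
  rw [Finset.sum_congr rfl fun k _ => e k, Finset.sum_ite_eq']
  simp

theorem ev_rowY (z : V φ) (j : Fin φ.length) (γ u1 u2 b : ℤ) :
    ev (rowY φ j γ u1 u2 b).1 z = γ * dd (sm φ) (fun k => wz z (Sum.inl k)) j +
      u1 * wz z (Sum.inr (j, 0)) + u2 * wz z (Sum.inr (j, 1)) := by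
  unfold rowY
  rw [show cols φ = 3 * φ.length * 2 + φ.length * 2 from rfl, ev_map,
    sum_eq (fun k => ((cY φ j γ u1 u2 k : ℤ) : ℝ)) z]
  have e1 : ∀ i : Fin (3 * φ.length), ((cY φ j γ u1 u2 (2 * i) : ℤ) : ℝ) = γ * sm φ j i := by
    intro i
    unfold cY n2
    rw [if_pos (by omega), show 2 * (i : ℕ) / 2 = i by omega, sgf_eq, if_pos (by omega)]
    push_cast; ring
  have e2 : ∀ i : Fin (3 * φ.length), ((cY φ j γ u1 u2 (2 * i + 1) : ℤ) : ℝ) =
      -(γ * sm φ j i) := by
    intro i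
    unfold cY n2
    rw [if_pos (by omega), show (2 * (i : ℕ) + 1) / 2 = i by omega, sgf_eq, if_neg (by omega)]
    push_cast; ring
  have e3 : ∀ j' : Fin φ.length, ((cY φ j γ u1 u2 (3 * φ.length * 2 + 2 * j') : ℤ) : ℝ) *
      wz z (Sum.inr (j', 0)) = if j' = j then (u1 : ℝ) * wz z (Sum.inr (j', 0)) else 0 := by
    intro j'
    unfold cY n2
    rw [if_neg (by omega)]
    by_cases h : j' = j
    · subst h
      rw [if_pos rfl, if_pos rfl]
    · have h' : (j' : ℕ) ≠ j := fun h2 => h (Fin.ext h2)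
      rw [if_neg (by omega), if_neg (by omega), if_neg h]
      simp
  have e4 : ∀ j' : Fin φ.length, ((cY φ j γ u1 u2 (3 * φ.length * 2 + 2 * j' + 1) : ℤ) : ℝ) *
      wz z (Sum.inr (j', 1)) = if j' = j then (u2 : ℝ) * wz z (Sum.inr (j', 1)) else 0 := by
    intro j'
    unfold cY n2
    rw [if_neg (by omega), if_neg (by omega)]
    by_cases h : j' = j
    · subst h
      rw [if_pos rfl, if_pos rfl]
    · have h' : (j' : ℕ) ≠ j := fun h2 => h (Fin.ext h2)
      rw [if_neg (by omega), if_neg h]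
      simp
  simp only [e1, e2, e3, e4, Finset.sum_add_distrib, Finset.sum_ite_eq', Finset.mem_univ, if_true]
  unfold dd
  rw [Finset.mul_sum, ← Finset.sum_add_distrib, add_assoc]
  congr 1
  refine Finset.sum_congr rfl fun i _ => ?_
  ring

/-- the feasible set of the rows -/
def PR (φ : List Cl) (M : ℕ) : Set (V φ) :=
  {z | (∀ r ∈ rows φ M, ev r.1 z ≤ (r.2 : ℝ)) ∧ ∀ k, 0 ≤ z k}

theorem wz_inl (z : V φ) {k : ℕ} (hk : k < 3 * φ.length * 2) :
    z ⟨k, by omega⟩ = wz z (Sum.inl (⟨k / 2, by omega⟩, ⟨k % 2, by omega⟩)) := by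
  unfold wz
  congr 1
  ext
  rw [eq_inl]
  simp only
  omega

theorem mem_PR (hφ : φ ≠ []) (z : V φ) : z ∈ PR φ M ↔ wz z ∈ PG (sm φ) M := by
  have hl : 0 < φ.length := List.length_pos_iff.2 hφ
  have hnn : (∀ k, 0 ≤ z k) ↔ ∀ p, 0 ≤ wz z p := by
    unfold wz
    exact ⟨fun h p => h _, fun h k => by simpa using h ((eq _ _).symm k)⟩
  -- the first rows
  have ha : (∀ s < 2, ev (rowX φ (cols φ) s 1).1 z ≤ 1) ↔
      ∀ (i : Fin (3 * φ.length)) (s : Fin 2), (i : ℕ) = 0 → wz z (Sum.inl (i, s)) ≤ 1 := by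
    constructor
    · intro h i s hi
      have h1 := h s s.2
      rw [ev_rowX' z (show (s : ℕ) < cols φ by unfold cols; omega),
        wz_inl z (show (s : ℕ) < 3 * φ.length * 2 by omega)] at h1
      convert h1 using 4
      · ext; simp only; omega
      · ext; simp only; omega
    · intro h s hs
      rw [ev_rowX' z (show s < cols φ by unfold cols; omega),
        wz_inl z (show s < 3 * φ.length * 2 by omega)]
      exact h _ _ (by simp only; omega)
  have hb : (∀ k < n2 φ - 2, ∀ s < 2, ev (rowX φ k (2 * (k / 2) + 2 + s) 0).1 z ≤ 0) ↔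
      ∀ (i i' : Fin (3 * φ.length)) (s s' : Fin 2), (i' : ℕ) = i + 1 →
        wz z (Sum.inl (i', s')) ≤ wz z (Sum.inl (i, s)) := by
    unfold n2
    constructor
    · intro h i i' s s' hi
      have h2 := i'.2
      have h3 := s.2
      have h4 := s'.2
      have h1 := h (2 * i + s) (by omega) s' s'.2
      rw [ev_rowX z (show 2 * (i : ℕ) + s < cols φ by unfold cols; omega)
        (show 2 * ((2 * (i : ℕ) + s) / 2) + 2 + s' < cols φ by unfold cols; omega),
        wz_inl z (show 2 * (i : ℕ) + s < 3 * φ.length * 2 by omega),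
        wz_inl z (show 2 * ((2 * (i : ℕ) + s) / 2) + 2 + s' < 3 * φ.length * 2 by omega)] at h1
      have e1 : (⟨(2 * (i : ℕ) + s) / 2, by omega⟩ : Fin (3 * φ.length)) = i := by
        ext; simp only; omega
      have e2 : (⟨(2 * (i : ℕ) + s) % 2, by omega⟩ : Fin 2) = s := by
        ext; simp only; omega
      have e3 : (⟨(2 * ((2 * (i : ℕ) + s) / 2) + 2 + s') / 2, by omega⟩ : Fin (3 * φ.length)) =
          i' := by
        ext; simp only; omega
      have e4 : (⟨(2 * ((2 * (i : ℕ) + s) / 2) + 2 + s') % 2, by omega⟩ : Fin 2) = s' := by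
        ext; simp only; omega
      rw [e1, e2, e3, e4] at h1
      linarith
    · intro h k hk s hs
      rw [ev_rowX z (show k < cols φ by unfold cols; omega)
        (show 2 * (k / 2) + 2 + s < cols φ by unfold cols; omega),
        wz_inl z (show k < 3 * φ.length * 2 by omega),
        wz_inl z (show 2 * (k / 2) + 2 + s < 3 * φ.length * 2 by omega)]
      rw [sub_nonpos]
      exact h _ _ _ _ (by simp only; omega)
  have hc : ∀ j : Fin φ.length, (∀ r ∈ rowsC φ M j, ev r.1 z ≤ (r.2 : ℝ)) ↔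
      Blk M (gg (sm φ) (fun k => wz z (Sum.inl k)) j) (wz z (Sum.inr (j, 0)))
        (wz z (Sum.inr (j, 1))) := by
    intro j
    unfold rowsC Blk gg
    rw [List.forall_mem_append]
    refine and_congr ?_ ?_
    · constructor
      · intro h r hr s hs
        have h1 := h (rowY φ j (r * (r + 1) + 1) (2 * (2 * r + 1)) (-2)
          (r * (r + 1) - 1 + 2 * (2 * r + 1) * M)) (List.mem_flatMap.2
            ⟨r, List.mem_range.2 hr, by simp⟩)
        have h2 := h (rowY φ j (r * (r + 1) + 1) (-(2 * (2 * r + 1))) (-2)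
          (r * (r + 1) - 1 - 2 * (2 * r + 1) * M)) (List.mem_flatMap.2
            ⟨r, List.mem_range.2 hr, by simp⟩)
        rw [ev_rowY] at h1 h2
        simp only [rowY] at h1 h2
        push_cast at h1 h2
        rcases hs with rfl | rfl <;> linarith
      · intro h r hr
        rw [List.mem_flatMap] at hr
        obtain ⟨r', hr', hr⟩ := hr
        rw [List.mem_range] at hr'
        have h1 := h r' hr' 1 (Or.inl rfl)
        have h2 := h r' hr' (-1) (Or.inr rfl)
        simp only [List.mem_cons, List.not_mem_nil, or_false] at hr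
        rcases hr with rfl | rfl
        · rw [ev_rowY]
          simp only [rowY]
          push_cast
          linarith
        · rw [ev_rowY]
          simp only [rowY]
          push_cast
          linarith
    · constructor
      · intro h
        have h1 := h _ (List.mem_singleton.2 rfl)
        rw [ev_rowY] at h1
        simp only [rowY] at h1
        push_cast at h1
        linarith
      · intro h r hr
        rw [List.mem_singleton] at hr
        subst hr
        rw [ev_rowY]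
        simp only [rowY]
        push_cast
        linarith
  have hrows : (∀ r ∈ rows φ M, ev r.1 z ≤ (r.2 : ℝ)) ↔
      (∀ s < 2, ev (rowX φ (cols φ) s 1).1 z ≤ 1) ∧
      (∀ k < n2 φ - 2, ∀ s < 2, ev (rowX φ k (2 * (k / 2) + 2 + s) 0).1 z ≤ 0) ∧
      ∀ j : Fin φ.length, ∀ r ∈ rowsC φ M j, ev r.1 z ≤ (r.2 : ℝ) := by
    unfold rows
    rw [List.forall_mem_append, List.forall_mem_append, and_assoc]
    refine and_congr ?_ (and_congr ?_ ?_)
    · simp only [List.forall_mem_map, List.mem_range]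
      refine forall₂_congr fun s hs => ?_
      rw [show ((rowX φ (cols φ) s 1).2 : ℝ) = 1 by simp [rowX]]
    · simp only [List.mem_flatMap, List.mem_range, List.mem_map]
      constructor
      · intro h k hk s hs
        have := h _ ⟨k, hk, s, hs, rfl⟩
        simpa [rowX] using this
      · rintro h _ ⟨k, hk, s, hs, rfl⟩
        simpa [rowX] using h k hk s hs
    · simp only [List.mem_flatMap, List.mem_range]
      exact ⟨fun h j r hr => h r ⟨j, j.2, hr⟩, fun h r ⟨j, hj, hr⟩ => h ⟨j, hj⟩ r hr⟩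
  unfold PR PG
  rw [mem_ofPred_eq, mem_ofPred_eq, hrows, ha, hb, hnn]
  constructor
  · rintro ⟨⟨h1, h2, h3⟩, h4⟩
    exact ⟨⟨fun k => h4 _, h1, h2⟩, fun k => h4 _, fun j => (hc j).1 (h3 j)⟩
  · rintro ⟨h1, h2, h3⟩
    refine ⟨⟨h1.le_one, h1.anti, fun j => (hc j).2 (h3 j)⟩, ?_⟩
    rintro (k | k)
    · exact h1.nonneg k
    · exact h2 k

end Pool.Agent.X239.GP
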