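import Pool.Agent.X239.GP.Geo
set_option autoImplicit false

/-!
# The lower bound
-/

namespace Pool.Agent.X239.GP

open Set

section Gen

variable {E : Type*} [AddCommGroup E] [Module ℝ E] [TopologicalSpace E] {P : Set E}

theorem mid_of_exposed {z z' w w' : E} (h : IsExposed ℝ P (segment ℝ z z')) (hw : w ∈ P)
    (hw' : w' ∈ P) (hs : w + w' = z + z') : w ∈ segment ℝ z z' := by
  obtain ⟨l, hl⟩ := h ⟨z, left_mem_segment ℝ z z'⟩
  have h1 : z ∈ {x | x ∈ P ∧ ∀ y ∈ P, l y ≤ l x} := hl ▸ left_mem_segment ℝ z z'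
  have h2 : z' ∈ {x | x ∈ P ∧ ∀ y ∈ P, l y ≤ l x} := hl ▸ right_mem_segment ℝ z z'
  rw [hl]
  refine ⟨hw, fun y hy => ?_⟩
  have h3 := congrArg l hs
  rw [map_add, map_add] at h3
  have h4 := h1.2 y hy
  have h5 := h2.2 w' hw'
  linarith

omit [TopologicalSpace E] in
theorem eq_of_extreme {z w w' : E} (h : z ∈ P.extremePoints ℝ) (hw : w ∈ P)
    (hw' : w' ∈ P) (hs : w + w' = z + z) : w = z := by
  have h1 : z ∈ openSegment ℝ w w' := by
    refine ⟨1 / 2, 1 / 2, by norm_num, by norm_num, by norm_num, ?_⟩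
    rw [← smul_add, hs, ← two_smul ℝ z, smul_smul]
    norm_num
  exact h.2 hw hw' h1

end Gen

variable {n m : ℕ} {σ : Fin m → Fin n → ℤ} {M : ℕ}

theorem inX_sq {x : Fin n × Fin 2 → ℝ} (h : InX x) {x' : Fin n × Fin 2 → ℝ} (h' : InX x') :
    InX fun k => x k * x' k := by
  refine ⟨fun k => mul_nonneg (h.nonneg k) (h'.nonneg k), fun i s hi => ?_, fun i i' s s' hi => ?_⟩
  · exact mul_le_one₀ (h.le_one i s hi) (h'.nonneg _) (h'.le_one i s hi)
  · exact mul_le_mul (h.anti _ _ _ _ hi) (h'.anti _ _ _ _ hi) (h'.nonneg _) (h.nonneg _)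

theorem inX_co {x : Fin n × Fin 2 → ℝ} (h : InX x) {x' : Fin n × Fin 2 → ℝ} (h' : InX x') :
    InX fun k => x k + x' k - x k * x' k := by
  refine ⟨fun k => ?_, fun i s _ => ?_, fun i i' s s' hi => ?_⟩
  · nlinarith [h.nonneg k, h'.nonneg k, h.le_one' k]
  · nlinarith [h.le_one' (i, s), h'.le_one' (i, s)]
  · nlinarith [h.anti i i' s s' hi, h'.anti i i' s s' hi, h.le_one' (i, s), h'.le_one' (i', s')]

theorem zero_one (hM : 0 < M) (hσ : ∀ j i, |σ j i| ≤ 1) {z : Idx n m → ℝ}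
    (hz : z ∈ (PG σ M).extremePoints ℝ) (k : Fin n × Fin 2) :
    z (Sum.inl k) = 0 ∨ z (Sum.inl k) = 1 := by
  obtain ⟨w, hw, w', hw', e1, e2⟩ := lift hM hσ hz.1 hz.1 (inX_sq hz.1.1 hz.1.1)
    (inX_co hz.1.1 hz.1.1) (fun k => by ring)
  have h1 := eq_of_extreme hz hw hw' e2
  have h2 := e1 k
  rw [h1] at h2
  have h3 : z (Sum.inl k) * (z (Sum.inl k) - 1) = 0 := by linarith
  rcases mul_eq_zero.1 h3 with h | h
  · exact Or.inl h
  · exact Or.inr (by linarith)

theorem nested (hM : 0 < M) (hσ : ∀ j i, |σ j i| ≤ 1) {z z' : Idx n m → ℝ}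
    (hz : z ∈ (PG σ M).extremePoints ℝ) (hz' : z' ∈ (PG σ M).extremePoints ℝ)
    (h : IsExposed ℝ (PG σ M) (segment ℝ z z')) :
    (∀ k, z (Sum.inl k) ≤ z' (Sum.inl k)) ∨ ∀ k, z' (Sum.inl k) ≤ z (Sum.inl k) := by
  obtain ⟨w, hw, w', hw', e1, e2⟩ := lift hM hσ hz.1 hz'.1 (inX_sq hz.1.1 hz'.1.1)
    (inX_co hz.1.1 hz'.1.1) (fun k => by ring)
  obtain ⟨a, b, ha, hb, hab, hw2⟩ := mid_of_exposed h hw hw' e2
  by_contra hc
  push Not at hc
  obtain ⟨⟨k, hk⟩, ⟨k', hk'⟩⟩ := hc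
  have h1 := e1 k
  have h2 := e1 k'
  rw [← hw2] at h1 h2
  simp only [Pi.add_apply, Pi.smul_apply, smul_eq_mul] at h1 h2
  have h3 : z' (Sum.inl k) = 0 ∧ z (Sum.inl k) = 1 := by
    rcases zero_one hM hσ hz k with h | h <;> rcases zero_one hM hσ hz' k with h' | h' <;>
      rw [h, h'] at hk <;> first | exact ⟨h', h⟩ | (exfalso; linarith)
  have h4 : z (Sum.inl k') = 0 ∧ z' (Sum.inl k') = 1 := by
    rcases zero_one hM hσ hz k' with h | h <;> rcases zero_one hM hσ hz' k' with h' | h' <;>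
      rw [h, h'] at hk' <;> first | exact ⟨h, h'⟩ | (exfalso; linarith)
  rw [h3.1, h3.2] at h1
  rw [h4.1, h4.2] at h2
  linarith

/-! ### Tight constraints -/

theorem exists_small {α : Type*} (S : Finset α) (a b c : α → ℝ) (h : ∀ i ∈ S, a i < c i) :
    ∃ δ > 0, ∀ i ∈ S, ∀ t : ℝ, |t| ≤ δ → a i + b i * t ≤ c i := by
  classical
  induction S using Finset.induction_on with
  | empty => exact ⟨1, one_pos, by simp⟩
  | insert j S hj ih =>
    obtain ⟨δ, h0, h1⟩ := ih fun i hi => h i (Finset.mem_insert_of_mem hi)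
    have h2 := h j (Finset.mem_insert_self _ _)
    refine ⟨min δ ((c j - a j) / (|b j| + 1)), lt_min h0 (div_pos (by linarith) (by positivity)),
      fun i hi t ht => ?_⟩
    rcases Finset.mem_insert.1 hi with rfl | hi
    · have h3 : |t| ≤ (c i - a i) / (|b i| + 1) := ht.trans (min_le_right _ _)
      rw [le_div_iff₀ (by positivity)] at h3
      have h4 : b i * t ≤ |b i| * |t| := by rw [← abs_mul]; exact le_abs_self _
      nlinarith [abs_nonneg t]
    · exact h1 i hi t (ht.trans (min_le_left _ _))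

/-- a side is tight -/
def TS (M r : ℕ) (s g y1 y2 : ℝ) : Prop :=
  s * (2 * r + 1) * (y1 - M) - y2 + (r * (r + 1) + 1) * g = r * (r + 1)

/-- the top side is tight -/
def TT (M : ℕ) (g y2 : ℝ) : Prop := y2 + ((M : ℝ) ^ 2 - 1) * g = (M : ℝ) ^ 2

/-- all constraints are strict -/
def BlkS (M : ℕ) (g y1 y2 : ℝ) : Prop :=
  (∀ r : ℕ, r < M → ∀ s : ℝ, s = 1 ∨ s = -1 →
    s * (2 * r + 1) * (y1 - M) - y2 + (r * (r + 1) + 1) * g < r * (r + 1)) ∧
  y2 + ((M : ℝ) ^ 2 - 1) * g < (M : ℝ) ^ 2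

theorem perturb {g y1 y2 : ℝ} (h : BlkS M g y1 y2) :
    ∃ δ > 0, ∀ t : ℝ, |t| ≤ δ → Blk M g (y1 + t) y2 ∧ Blk M g y1 (y2 + t) := by
  classical
  obtain ⟨δ1, h1, h2⟩ := exists_small (Finset.range M ×ˢ ({1, -1} : Finset ℝ))
    (fun p => p.2 * (2 * p.1 + 1) * (y1 - M) - y2 + (p.1 * (p.1 + 1) + 1) * g)
    (fun p => p.2 * (2 * p.1 + 1)) (fun p => (p.1 : ℝ) * (p.1 + 1)) (by
      rintro ⟨r, s⟩ hp
      rw [Finset.mem_product, Finset.mem_range] at hp
      simp only [Finset.mem_insert, Finset.mem_singleton] at hp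
      exact h.1 r hp.1 s hp.2)
  obtain ⟨δ2, h3, h4⟩ := exists_small (Finset.range M ×ˢ ({1, -1} : Finset ℝ))
    (fun p => p.2 * (2 * p.1 + 1) * (y1 - M) - y2 + (p.1 * (p.1 + 1) + 1) * g)
    (fun p => -1) (fun p => (p.1 : ℝ) * (p.1 + 1)) (by
      rintro ⟨r, s⟩ hp
      rw [Finset.mem_product, Finset.mem_range] at hp
      simp only [Finset.mem_insert, Finset.mem_singleton] at hp
      exact h.1 r hp.1 s hp.2)
  obtain ⟨δ3, h5, h6⟩ := exists_small (Finset.univ : Finset Unit)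
    (fun _ => y2 + ((M : ℝ) ^ 2 - 1) * g) (fun _ => 1) (fun _ => (M : ℝ) ^ 2) (fun _ _ => h.2)
  refine ⟨min δ1 (min δ2 δ3), lt_min h1 (lt_min h3 h5), fun t ht => ?_⟩
  have ht1 : |t| ≤ δ1 := ht.trans (min_le_left _ _)
  have ht2 : |t| ≤ δ2 := ht.trans ((min_le_right _ _).trans (min_le_left _ _))
  have ht3 : |t| ≤ δ3 := ht.trans ((min_le_right _ _).trans (min_le_right _ _))
  refine ⟨⟨fun r hr s hs => ?_, h.2.le⟩, ⟨fun r hr s hs => ?_, ?_⟩⟩
  · have := h2 (r, s) (by simp [hr, hs]) t ht1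
    simp only at this
    linarith
  · have := h4 (r, s) (by simp [hr, hs]) t ht2
    simp only at this
    linarith
  · have := h6 () (by simp) t ht3
    linarith

theorem mid_mem {z z' w : Idx n m → ℝ} (hz : z ∈ PG σ M) (hz' : z' ∈ PG σ M)
    (hw : w + w = z + z') : w ∈ PG σ M := by
  have hk : ∀ k, w k = (z k + z' k) / 2 := fun k => by
    have := congrFun hw k
    simp only [Pi.add_apply] at this
    linarith
  have hg : ∀ j, gg σ (fun k => w (Sum.inl k)) j =
      (gg σ (fun k => z (Sum.inl k)) j + gg σ (fun k => z' (Sum.inl k)) j) / 2 := fun j => by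
    have := gg_add (σ := σ) (fun k => w (Sum.inl k)) (fun k => w (Sum.inl k)) j
      (x' := fun k => z (Sum.inl k)) (y' := fun k => z' (Sum.inl k)) (by
        funext k; exact congrFun hw (Sum.inl k))
    linarith
  refine ⟨⟨fun k => ?_, fun i s hi => ?_, fun i i' s s' hi => ?_⟩, fun k => ?_, fun j => ⟨?_, ?_⟩⟩
  · have h1 := hz.1.nonneg k
    have h2 := hz'.1.nonneg k
    simp only [hk]
    linarith
  · have h1 := hz.1.le_one i s hi
    have h2 := hz'.1.le_one i s hi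
    simp only [hk]
    linarith
  · have h1 := hz.1.anti i i' s s' hi
    have h2 := hz'.1.anti i i' s s' hi
    simp only [hk]
    linarith
  · have h1 := hz.2.1 k
    have h2 := hz'.2.1 k
    rw [hk]
    linarith
  · intro r hr s hs
    have h1 := (hz.2.2 j).1 r hr s hs
    have h2 := (hz'.2.2 j).1 r hr s hs
    rw [hg, hk, hk]
    linarith
  · have h1 := (hz.2.2 j).2
    have h2 := (hz'.2.2 j).2
    rw [hg, hk]
    linarith

theorem update_mem (hM : 0 < M) (hσ : ∀ j i, |σ j i| ≤ 1) {w : Idx n m → ℝ} (hw : w ∈ PG σ M)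
    {j : Fin m} {s : Fin 2} {t : ℝ}
    (h : Blk M (gg σ (fun k => w (Sum.inl k)) j)
      (Function.update w (Sum.inr (j, s)) t (Sum.inr (j, 0)))
      (Function.update w (Sum.inr (j, s)) t (Sum.inr (j, 1)))) :
    Function.update w (Sum.inr (j, s)) t ∈ PG σ M := by
  have e : (fun k => Function.update w (Sum.inr (j, s)) t (Sum.inl k)) = fun k => w (Sum.inl k) := by
    funext k
    rw [Function.update_of_ne (by simp)]
  have hb : ∀ j', Blk M (gg σ (fun k => w (Sum.inl k)) j')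
      (Function.update w (Sum.inr (j, s)) t (Sum.inr (j', 0)))
      (Function.update w (Sum.inr (j, s)) t (Sum.inr (j', 1))) := by
    intro j'
    by_cases hj : j' = j
    · subst hj; exact h
    · rw [Function.update_of_ne (by simp [hj]), Function.update_of_ne (by simp [hj])]
      exact hw.2.2 j'
  refine ⟨?_, ?_, ?_⟩
  · rw [e]; exact hw.1
  · rintro ⟨j', s'⟩
    have h1 := blk_nonneg hM (gg_mem hσ hw.1 j').1 (hb j')
    fin_cases s'
    · exact h1.1
    · exact h1.2.1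
  · intro j'
    rw [e]; exact hb j'

/-- On an edge, every block has a constraint which is tight at both ends. -/
theorem common_tight (hM : 0 < M) (hσ : ∀ j i, |σ j i| ≤ 1) {z z' : Idx n m → ℝ}
    (hz : z ∈ PG σ M) (hz' : z' ∈ PG σ M) (h : IsExposed ℝ (PG σ M) (segment ℝ z z')) (j : Fin m) :
    (∃ r < M, ∃ s : ℝ, (s = 1 ∨ s = -1) ∧
      TS M r s (gg σ (fun k => z (Sum.inl k)) j) (z (Sum.inr (j, 0))) (z (Sum.inr (j, 1))) ∧
      TS M r s (gg σ (fun k => z' (Sum.inl k)) j) (z' (Sum.inr (j, 0))) (z' (Sum.inr (j, 1)))) ∨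
    (TT M (gg σ (fun k => z (Sum.inl k)) j) (z (Sum.inr (j, 1))) ∧
      TT M (gg σ (fun k => z' (Sum.inl k)) j) (z' (Sum.inr (j, 1)))) := by
  by_contra hc
  rw [not_or] at hc
  obtain ⟨hc1, hc2⟩ := hc
  set w : Idx n m → ℝ := fun k => (z k + z' k) / 2 with hw
  have hww : w + w = z + z' := by funext k; simp only [hw, Pi.add_apply]; ring
  have hwP : w ∈ PG σ M := mid_mem hz hz' hww
  have hg : gg σ (fun k => w (Sum.inl k)) j =
      (gg σ (fun k => z (Sum.inl k)) j + gg σ (fun k => z' (Sum.inl k)) j) / 2 := by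
    have := gg_add (σ := σ) (fun k => w (Sum.inl k)) (fun k => w (Sum.inl k)) j
      (x' := fun k => z (Sum.inl k)) (y' := fun k => z' (Sum.inl k)) (by
        funext k; exact congrFun hww (Sum.inl k))
    linarith
  have hS : BlkS M (gg σ (fun k => w (Sum.inl k)) j) (w (Sum.inr (j, 0))) (w (Sum.inr (j, 1))) := by
    refine ⟨fun r hr s hs => ?_, ?_⟩
    · have h1 := (hz.2.2 j).1 r hr s hs
      have h2 := (hz'.2.2 j).1 r hr s hs
      rw [hg]
      simp only [hw]
      by_contra hcon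
      exact hc1 ⟨r, hr, s, hs, le_antisymm h1 (by linarith), le_antisymm h2 (by linarith)⟩
    · have h1 := (hz.2.2 j).2
      have h2 := (hz'.2.2 j).2
      rw [hg]
      simp only [hw]
      by_contra hcon
      exact hc2 ⟨le_antisymm h1 (by linarith), le_antisymm h2 (by linarith)⟩
  obtain ⟨δ, hδ, hp⟩ := perturb hS
  -- moving in the direction `s`
  have key : ∀ s : Fin 2, ∃ τ : ℝ, ∀ k, (if k = Sum.inr (j, s) then δ else 0) =
      τ * (z' k - z k) := by
    intro s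
    have hmem : ∀ t : ℝ, |t| ≤ δ →
        Function.update w (Sum.inr (j, s)) (w (Sum.inr (j, s)) + t) ∈ PG σ M := by
      intro t ht
      refine update_mem hM hσ hwP ?_
      fin_cases s
      · simp only [Fin.zero_eta, Fin.isValue, Function.update_self]
        rw [Function.update_of_ne (by simp)]
        exact (hp t ht).1
      · simp only [Fin.mk_one, Fin.isValue, Function.update_self]
        rw [Function.update_of_ne (by simp)]
        exact (hp t ht).2
    have h1 := hmem δ (by rw [abs_of_pos hδ])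
    have h2 := hmem (-δ) (by rw [abs_neg, abs_of_pos hδ])
    obtain ⟨a, b, ha, hb, hab, he⟩ := mid_of_exposed h h1 h2 (by
      rw [← hww]
      funext k
      by_cases hk : k = Sum.inr (j, s)
      · subst hk
        simp only [Pi.add_apply, Function.update_self]
        ring
      · simp only [Pi.add_apply, Function.update_of_ne hk])
    refine ⟨b - 1 / 2, fun k => ?_⟩
    have h3 := congrFun he k
    simp only [Pi.add_apply, Pi.smul_apply, smul_eq_mul] at h3
    have ea : a = 1 - b := by linarith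
    rw [ea] at h3
    by_cases hk : k = Sum.inr (j, s)
    · subst hk
      rw [if_pos rfl]
      rw [Function.update_self] at h3
      simp only [hw] at h3
      linarith
    · rw [if_neg hk]
      rw [Function.update_of_ne hk] at h3
      simp only [hw] at h3
      linarith
  obtain ⟨τ0, h0⟩ := key 0
  obtain ⟨τ1, h1⟩ := key 1
  have h2 := h0 (Sum.inr (j, 0))
  have h3 := h1 (Sum.inr (j, 0))
  have h4 := h1 (Sum.inr (j, 1))
  rw [if_pos rfl] at h2 h4
  rw [if_neg (by simp)] at h3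
  have h5 : z' (Sum.inr (j, 0)) - z (Sum.inr (j, 0)) ≠ 0 := by
    intro h6
    rw [h6, mul_zero] at h2
    linarith
  have h6 : τ1 = 0 := by
    rcases mul_eq_zero.1 h3.symm with h | h
    · exact h
    · exact absurd h h5
  rw [h6, zero_mul] at h4
  linarith

theorem tight_range {r : ℕ} {s g y1 y2 : ℝ} (hr : r < M) (hs : s = 1 ∨ s = -1)
    (h : Blk M g y1 y2) (ht : TS M r s g y1 y2) :
    r * (1 - g) ≤ s * (y1 - M) ∧ s * (y1 - M) ≤ (r + 1) * (1 - g) := by
  unfold TS at ht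
  obtain ⟨h1, h2⟩ := h
  constructor
  · rcases Nat.eq_zero_or_pos r with h0 | h0
    · subst h0
      have h3 := h1 0 hr (-s) (by rcases hs with h | h <;> simp [h])
      simp only [Nat.cast_zero] at ht h3 ⊢
      linarith
    · have h3 := h1 (r - 1) (by omega) s hs
      rw [Nat.cast_sub h0] at h3
      simp only [Nat.cast_one] at h3
      linarith
  · by_cases h0 : r + 1 < M
    · have h3 := h1 (r + 1) h0 s hs
      push_cast at h3
      linarith
    · have h3 : (M : ℝ) = r + 1 := by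
        have : M = r + 1 := by omega
        rw [this]; push_cast; ring
      rw [h3] at h2 ht ⊢
      have h4 : 0 ≤ (2 * (r : ℝ) + 1) * ((r + 1) * (1 - g) - s * (y1 - (r + 1))) := by nlinarith
      have h5 : 0 < 2 * (r : ℝ) + 1 := by positivity
      by_contra hc
      have : (2 * (r : ℝ) + 1) * ((r + 1) * (1 - g) - s * (y1 - (r + 1))) < 0 :=
        mul_neg_of_pos_of_neg h5 (by linarith)
      linarith

theorem tight_top {r : ℕ} {s g y1 y2 : ℝ} (hr : r < M) (hs : s = 1 ∨ s = -1) (hg : g < 1)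
    (h : Blk M g y1 y2) (ht : TS M r s g y1 y2) (ht' : TT M g y2) :
    s * (y1 - M) = M * (1 - g) := by
  have h1 := (tight_range hr hs h ht).2
  unfold TS at ht
  unfold TT at ht'
  have h2 : s * (2 * r + 1) * (y1 - M) = ((M : ℝ) ^ 2 + r * (r + 1)) * (1 - g) := by linarith
  have h3 : ((M : ℝ) ^ 2 + r * (r + 1)) * (1 - g) ≤ ((2 * r + 1) * (r + 1)) * (1 - g) := by
    rw [← h2]
    have := mul_le_mul_of_nonneg_left h1 (show (0 : ℝ) ≤ 2 * r + 1 by positivity)
    linarith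
  have h4 : (M : ℝ) ^ 2 + r * (r + 1) ≤ (2 * r + 1) * (r + 1) :=
    le_of_mul_le_mul_right h3 (by linarith)
  have h5 : M = r + 1 := by
    have h6 : (M : ℝ) ^ 2 ≤ ((r + 1 : ℕ) : ℝ) ^ 2 := by push_cast; linarith
    have h7 : (M : ℝ) ≤ ((r + 1 : ℕ) : ℝ) := by
      rwa [sq_le_sq₀ (by positivity) (by positivity)] at h6
    have : M ≤ r + 1 := by exact_mod_cast h7
    omega
  have h6 : (M : ℝ) = r + 1 := by rw [h5]; push_cast; ring
  rw [h6] at h2 ⊢
  have h7 : 0 < 2 * (r : ℝ) + 1 := by positivity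
  have h8 : (2 * (r : ℝ) + 1) * (s * (y1 - (r + 1)) - (r + 1) * (1 - g)) = 0 := by linarith
  rcases mul_eq_zero.1 h8 with h | h
  · linarith
  · linarith

/-- the horizontal distance from the axis, rescaled -/
noncomputable def hd (σ : Fin m → Fin n → ℤ) (M : ℕ) (z : Idx n m → ℝ) (j : Fin m) : ℝ :=
  |z (Sum.inr (j, 0)) - M| / (1 - gg σ (fun k => z (Sum.inl k)) j)

theorem hd_range {z : Idx n m → ℝ} {j : Fin m} (hz : z ∈ PG σ M)
    (hg : gg σ (fun k => z (Sum.inl k)) j < 1) {r : ℕ} {s : ℝ} (hr : r < M)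
    (hs : s = 1 ∨ s = -1) (ht : TS M r s (gg σ (fun k => z (Sum.inl k)) j) (z (Sum.inr (j, 0)))
      (z (Sum.inr (j, 1)))) : (r : ℝ) ≤ hd σ M z j ∧ hd σ M z j ≤ r + 1 := by
  obtain ⟨h1, h2⟩ := tight_range hr hs (hz.2.2 j) ht
  have hp : 0 < 1 - gg σ (fun k => z (Sum.inl k)) j := by linarith
  have h3 : |z (Sum.inr (j, 0)) - M| = s * (z (Sum.inr (j, 0)) - M) := by
    have h4 : 0 ≤ s * (z (Sum.inr (j, 0)) - M) :=
      le_trans (mul_nonneg (Nat.cast_nonneg _) hp.le) h1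
    rcases hs with rfl | rfl
    · rw [abs_of_nonneg (by linarith)]; ring
    · rw [abs_of_nonpos (by linarith)]; ring
  unfold hd
  rw [h3, le_div_iff₀ hp, div_le_iff₀ hp]
  exact ⟨h1, h2⟩

theorem hd_top {z : Idx n m → ℝ} {j : Fin m} (hz : z ∈ PG σ M)
    (hg : gg σ (fun k => z (Sum.inl k)) j < 1) {r : ℕ} {s : ℝ} (hr : r < M)
    (hs : s = 1 ∨ s = -1) (ht : TS M r s (gg σ (fun k => z (Sum.inl k)) j) (z (Sum.inr (j, 0)))
      (z (Sum.inr (j, 1))))
    (ht' : TT M (gg σ (fun k => z (Sum.inl k)) j) (z (Sum.inr (j, 1)))) : hd σ M z j = M := by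
  have hp : 0 < 1 - gg σ (fun k => z (Sum.inl k)) j := by linarith
  have h1 := tight_top hr hs hg (hz.2.2 j) ht ht'
  have h3 : |z (Sum.inr (j, 0)) - M| = s * (z (Sum.inr (j, 0)) - M) := by
    have h4 : 0 ≤ s * (z (Sum.inr (j, 0)) - M) := by
      rw [h1]; exact mul_nonneg (Nat.cast_nonneg _) hp.le
    rcases hs with rfl | rfl
    · rw [abs_of_nonneg (by linarith)]; ring
    · rw [abs_of_nonpos (by linarith)]; ring
  unfold hd
  rw [h3, h1, mul_div_assoc, div_self hp.ne', mul_one]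

/-- If the block `j` never collapses, then a path from the bottom to the top is long. -/
theorem long_path (hM : 0 < M) (hσ : ∀ j i, |σ j i| ≤ 1) {N : ℕ} {u : ℕ → Idx n m → ℝ}
    (hu : ∀ k ≤ N, u k ∈ PG σ M)
    (he : ∀ k < N, IsExposed ℝ (PG σ M) (segment ℝ (u k) (u (k + 1)))) {j : Fin m}
    (hg : ∀ k ≤ N, gg σ (fun i => u k (Sum.inl i)) j < 1)
    (h0 : u 0 (Sum.inr (j, 0)) = M)
    (h0' : ¬ TT M (gg σ (fun k => u 0 (Sum.inl k)) j) (u 0 (Sum.inr (j, 1))))
    (hN : TT M (gg σ (fun k => u N (Sum.inl k)) j) (u N (Sum.inr (j, 1)))) : M ≤ N := by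
  classical
  have hex : ∃ k, k ≤ N ∧ TT M (gg σ (fun i => u k (Sum.inl i)) j) (u k (Sum.inr (j, 1))) :=
    ⟨N, le_rfl, hN⟩
  obtain ⟨hK1, hK2⟩ := Nat.find_spec hex
  set K := Nat.find hex with hK
  have hK3 : ∀ k < K, ¬ TT M (gg σ (fun i => u k (Sum.inl i)) j) (u k (Sum.inr (j, 1))) :=
    fun k hk h => Nat.find_min hex hk ⟨by omega, h⟩
  have hK0 : K ≠ 0 := by
    intro h
    rw [h] at hK2
    exact h0' hK2
  -- the steps
  have hstep : ∀ k < K, ∃ r < M, ∃ s : ℝ, (s = 1 ∨ s = -1) ∧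
      TS M r s (gg σ (fun i => u k (Sum.inl i)) j) (u k (Sum.inr (j, 0))) (u k (Sum.inr (j, 1))) ∧
      TS M r s (gg σ (fun i => u (k + 1) (Sum.inl i)) j) (u (k + 1) (Sum.inr (j, 0)))
        (u (k + 1) (Sum.inr (j, 1))) := by
    intro k hk
    rcases common_tight hM hσ (hu k (by omega)) (hu (k + 1) (by omega)) (he k (by omega)) j with
      h | h
    · exact h
    · exact absurd h.1 (hK3 k hk)
  have hle : ∀ k ≤ K, hd σ M (u k) j ≤ k := by
    intro k
    induction k with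
    | zero =>
      intro _
      unfold hd
      rw [h0, sub_self, abs_zero, zero_div, Nat.cast_zero]
    | succ k ih =>
      intro hk
      obtain ⟨r, hr, s, hs, t1, t2⟩ := hstep k (by omega)
      have h1 := hd_range (hu k (by omega)) (hg k (by omega)) hr hs t1
      have h2 := hd_range (hu (k + 1) (by omega)) (hg (k + 1) (by omega)) hr hs t2
      have h3 := ih (by omega)
      have h4 : r ≤ k := by
        have : (r : ℝ) ≤ k := h1.1.trans h3
        exact_mod_cast this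
      have h5 : (r : ℝ) ≤ k := by exact_mod_cast h4
      push_cast
      linarith [h2.2]
  obtain ⟨K', hK'⟩ := Nat.exists_eq_succ_of_ne_zero hK0
  obtain ⟨r, hr, s, hs, t1, t2⟩ := hstep K' (by omega)
  have h1 := hd_top (hu (K' + 1) (by omega)) (hg (K' + 1) (by omega)) hr hs t2 (by
    rw [Nat.succ_eq_add_one] at hK'
    rw [← hK']; exact hK2)
  have h2 := hle (K' + 1) (by omega)
  rw [h1] at h2
  have h3 : M ≤ K' + 1 := by exact_mod_cast h2
  omega

/-! ### The objective function -/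

/-- the weight -/
def WW (m M : ℕ) : ℕ := m * M ^ 2 + 1

/-- the objective function -/
def CC (M : ℕ) (z : Idx n m → ℝ) : ℝ :=
  (WW m M : ℝ) * ∑ k, z (Sum.inl k) + ∑ j, z (Sum.inr (j, 1))

/-- the start -/
noncomputable def v0 (n m M : ℕ) : Idx n m → ℝ :=
  Sum.elim (fun _ => 0) fun p => if p.2 = 0 then (M : ℝ) else 1 / 2

theorem cc_lt (hM : 0 < M) (hσ : ∀ j i, |σ j i| ≤ 1) {z z' : Idx n m → ℝ} (hz : z ∈ PG σ M)
    (hz' : z' ∈ PG σ M) (h : ∑ k, z (Sum.inl k) + 1 ≤ ∑ k, z' (Sum.inl k)) :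
    CC M z < CC M z' := by
  unfold CC WW
  have h1 : ∑ j : Fin m, z (Sum.inr (j, 1)) ≤ m * (M : ℝ) ^ 2 := by
    have h3 := Finset.sum_le_card_nsmul (Finset.univ : Finset (Fin m))
      (fun j => z (Sum.inr (j, 1))) ((M : ℝ) ^ 2)
      (fun j _ => (blk_nonneg hM (gg_mem hσ hz.1 j).1 (hz.2.2 j)).2.2)
    simpa using h3
  have h2 : 0 ≤ ∑ j : Fin m, z' (Sum.inr (j, 1)) := Finset.sum_nonneg fun j _ => hz'.2.1 _
  push_cast
  nlinarith [mul_le_mul_of_nonneg_left h (show (0 : ℝ) ≤ m * (M : ℝ) ^ 2 + 1 by positivity)]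

/-- All ones, and all blocks at the top. -/
noncomputable def vT (n m M : ℕ) : Idx n m → ℝ :=
  Sum.elim (fun _ => 1) fun p => if p.2 = 0 then (M : ℝ) + M / 2 else ((M : ℝ) ^ 2 + 1) / 2

theorem dd_const (c : ℝ) (j : Fin m) : dd σ (fun _ => c) j = 0 := by
  unfold dd
  simp

theorem gg_const (c : ℝ) (j : Fin m) : gg σ (fun _ => c) j = 1 / 2 := by
  unfold gg
  rw [dd_const, add_zero]

theorem inX_const {c : ℝ} (h0 : 0 ≤ c) (h1 : c ≤ 1) : InX (fun _ : Fin n × Fin 2 => c) :=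
  ⟨fun _ => h0, fun _ _ _ => h1, fun _ _ _ _ _ => le_rfl⟩

theorem blk_bot {g : ℝ} (h1 : g ≤ 1) : Blk M g M g := by
  have h2 : Blk M 0 M 0 := by
    refine ⟨fun r hr s hs => ?_, ?_⟩
    · have : (0 : ℝ) ≤ r * (r + 1) := by positivity
      simpa using this
    · simp
  have h3 := blk_mix h1 h2
  convert h3 using 1 <;> ring

theorem blk_top {g : ℝ} (h1 : g ≤ 1) :
    Blk M g (M + M * (1 - g)) ((M : ℝ) ^ 2 - ((M : ℝ) ^ 2 - 1) * g) := by
  have h2 : Blk M 0 (2 * M) ((M : ℝ) ^ 2) := by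
    refine ⟨fun r hr s hs => ?_, ?_⟩
    · have h3 : (r : ℝ) + 1 ≤ M := by exact_mod_cast hr
      have h4 : (0 : ℝ) ≤ (M - r) * (M - (r + 1)) := mul_nonneg (by linarith) (by linarith)
      have h5 : (0 : ℝ) ≤ r := Nat.cast_nonneg _
      rcases hs with rfl | rfl
      · nlinarith
      · nlinarith
    · simp
  have h3 := blk_mix h1 h2
  convert h3 using 1 <;> ring

theorem v0_mem : v0 n m M ∈ PG σ M := by
  have e : (fun k => v0 n m M (Sum.inl k)) = fun _ => (0 : ℝ) := rfl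
  refine ⟨?_, ?_, fun j => ?_⟩
  · rw [e]; exact inX_const le_rfl zero_le_one
  · rintro ⟨j, s⟩
    change 0 ≤ if s = 0 then (M : ℝ) else 1 / 2
    split_ifs
    · positivity
    · norm_num
  · rw [e, gg_const]
    exact blk_bot (by norm_num)

theorem vT_mem : vT n m M ∈ PG σ M := by
  have e : (fun k => vT n m M (Sum.inl k)) = fun _ => (1 : ℝ) := rfl
  refine ⟨?_, ?_, fun j => ?_⟩
  · rw [e]; exact inX_const zero_le_one le_rfl
  · rintro ⟨j, s⟩
    change 0 ≤ if s = 0 then (M : ℝ) + M / 2 else ((M : ℝ) ^ 2 + 1) / 2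
    split_ifs <;> positivity
  · rw [e, gg_const]
    have := blk_top (M := M) (g := 1 / 2) (by norm_num)
    convert this using 1
    · change (M : ℝ) + M / 2 = _
      ring
    · change ((M : ℝ) ^ 2 + 1) / 2 = _
      ring

theorem sum_le_card (x : Fin n × Fin 2 → ℝ) (h : InX x) : ∑ k, x k ≤ 2 * n := by
  have h3 := Finset.sum_le_card_nsmul (Finset.univ : Finset (Fin n × Fin 2)) x 1
    (fun k _ => h.le_one' k)
  simp only [Finset.card_univ, Fintype.card_prod, Fintype.card_fin, nsmul_eq_mul, mul_one] at h3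
  push_cast at h3
  linarith

theorem neg_dd_le (hσ : ∀ j i, |σ j i| ≤ 1) {x : Fin n × Fin 2 → ℝ} (h : InX x) (j : Fin m) :
    -dd σ x j ≤ 2 * n - ∑ k, x k := by
  have h1 : (2 : ℝ) * n - ∑ k, x k = ∑ i : Fin n, ((1 - x (i, 0)) + (1 - x (i, 1))) := by
    rw [Fintype.sum_prod_type]
    simp only [Fin.sum_univ_two, Finset.sum_add_distrib, Finset.sum_sub_distrib,
      Finset.sum_const, Finset.card_univ, Fintype.card_fin, nsmul_eq_mul, mul_one]
    ring
  rw [h1]
  unfold dd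
  rw [← Finset.sum_neg_distrib]
  refine Finset.sum_le_sum fun i _ => ?_
  have h2 : |(σ j i : ℝ)| ≤ 1 := by exact_mod_cast hσ j i
  have h3 := h.le_one' (i, 0)
  have h4 := h.le_one' (i, 1)
  have h5 : |x (i, 0) - x (i, 1)| ≤ (1 - x (i, 0)) + (1 - x (i, 1)) := by
    rw [abs_le]; constructor <;> linarith
  have h6 : -((σ j i : ℝ) * (x (i, 0) - x (i, 1))) ≤ |(σ j i : ℝ)| * |x (i, 0) - x (i, 1)| := by
    rw [← abs_mul]; exact neg_le_abs _
  have h7 := mul_le_mul_of_nonneg_right h2 (abs_nonneg (x (i, 0) - x (i, 1)))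
  linarith

/-- An upper bound for the objective function. -/
theorem cc_le (hM : 0 < M) (hσ : ∀ j i, |σ j i| ≤ 1) {z : Idx n m → ℝ} (hz : z ∈ PG σ M) :
    CC M z + (2 * n - ∑ k, z (Sum.inl k)) +
      ∑ j, ((M : ℝ) ^ 2 - z (Sum.inr (j, 1)) -
        ((M : ℝ) ^ 2 - 1) * gg σ (fun k => z (Sum.inl k)) j) ≤ CC M (vT n m M) := by
  have h1 : CC M (vT n m M) = (WW m M : ℝ) * (2 * n) + m * (((M : ℝ) ^ 2 + 1) / 2) := by
    unfold CC
    have e1 : ∑ k : Fin n × Fin 2, vT n m M (Sum.inl k) = 2 * n := by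
      change ∑ k : Fin n × Fin 2, (1 : ℝ) = 2 * n
      simp only [Finset.sum_const, Finset.card_univ, Fintype.card_prod, Fintype.card_fin,
        nsmul_eq_mul, mul_one]
      push_cast
      ring
    have e2 : ∑ j : Fin m, vT n m M (Sum.inr (j, 1)) = m * (((M : ℝ) ^ 2 + 1) / 2) := by
      change ∑ j : Fin m, ((M : ℝ) ^ 2 + 1) / 2 = _
      simp
    rw [e1, e2]
  set S := ∑ k, z (Sum.inl k) with hS
  have hS2 : S ≤ 2 * n := sum_le_card _ hz.1
  have h2 : ∑ j, ((M : ℝ) ^ 2 - z (Sum.inr (j, 1)) -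
        ((M : ℝ) ^ 2 - 1) * gg σ (fun k => z (Sum.inl k)) j) + ∑ j, z (Sum.inr (j, 1)) ≤
      m * (((M : ℝ) ^ 2 + 1) / 2 + ((M : ℝ) ^ 2 - 1) / 2 * (2 * n - S)) := by
    rw [← Finset.sum_add_distrib]
    have h3 := Finset.sum_le_card_nsmul (Finset.univ : Finset (Fin m))
      (fun j => (M : ℝ) ^ 2 - z (Sum.inr (j, 1)) -
        ((M : ℝ) ^ 2 - 1) * gg σ (fun k => z (Sum.inl k)) j + z (Sum.inr (j, 1)))
      (((M : ℝ) ^ 2 + 1) / 2 + ((M : ℝ) ^ 2 - 1) / 2 * (2 * n - S)) (fun j _ => by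
        have h4 := neg_dd_le hσ hz.1 j
        have h5 : (0 : ℝ) ≤ (M : ℝ) ^ 2 - 1 := by
          have : (1 : ℝ) ≤ (M : ℝ) := by exact_mod_cast hM
          nlinarith
        have h6 := mul_le_mul_of_nonneg_left h4 h5
        unfold gg
        linarith)
    rw [Finset.card_univ, Fintype.card_fin, nsmul_eq_mul] at h3
    exact h3
  rw [h1]
  unfold CC WW
  rw [← hS]
  push_cast
  have h3 : (0 : ℝ) ≤ m * (((M : ℝ) ^ 2 + 1) / 2) * (2 * n - S) := by
    apply mul_nonneg (by positivity); linarith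
  nlinarith

theorem top_of_max (hM : 0 < M) (hσ : ∀ j i, |σ j i| ≤ 1) {z : Idx n m → ℝ} (hz : z ∈ PG σ M)
    (h : ∀ y ∈ PG σ M, CC M y ≤ CC M z) (j : Fin m) :
    TT M (gg σ (fun k => z (Sum.inl k)) j) (z (Sum.inr (j, 1))) := by
  have h1 := cc_le hM hσ hz
  have h2 := h _ vT_mem
  have h3 : ∀ j ∈ (Finset.univ : Finset (Fin m)), 0 ≤ (M : ℝ) ^ 2 - z (Sum.inr (j, 1)) -
        ((M : ℝ) ^ 2 - 1) * gg σ (fun k => z (Sum.inl k)) j := fun j _ => by
    have := (hz.2.2 j).2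
    linarith
  have h4 := sum_le_card _ hz.1
  have h5 : ∑ j, ((M : ℝ) ^ 2 - z (Sum.inr (j, 1)) -
        ((M : ℝ) ^ 2 - 1) * gg σ (fun k => z (Sum.inl k)) j) = 0 :=
    le_antisymm (by linarith) (Finset.sum_nonneg h3)
  have h6 := (Finset.sum_eq_zero_iff_of_nonneg h3).1 h5 j (Finset.mem_univ _)
  unfold TT
  linarith

/-- **The lower bound**: a short monotone path gives a satisfying assignment. -/
theorem sat_or_long (hM : 2 ≤ M) (hσ : ∀ j i, |σ j i| ≤ 1) {N : ℕ} {u : ℕ → Idx n m → ℝ}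
    (hu : ∀ k ≤ N, u k ∈ (PG σ M).extremePoints ℝ) (h0 : u 0 = v0 n m M)
    (he : ∀ k < N, IsExposed ℝ (PG σ M) (segment ℝ (u k) (u (k + 1))) ∧
      CC M (u k) < CC M (u (k + 1)))
    (hmax : ∀ y ∈ PG σ M, CC M y ≤ CC M (u N)) :
    (∃ α : Fin n → Bool, ∀ j, ∃ i, (σ j i = 1 ∧ α i = true) ∨ (σ j i = -1 ∧ α i = false)) ∨
      M ≤ N := by
  classical
  have hM0 : 0 < M := by omega
  by_cases hcol : ∀ j, ∃ k ≤ N, gg σ (fun i => u k (Sum.inl i)) j = 1
  swap
  · right
    push Not at hcol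
    obtain ⟨j, hj⟩ := hcol
    refine long_path hM0 hσ (fun k hk => (hu k hk).1) (fun k hk => (he k hk).1) (j := j)
      (fun k hk => lt_of_le_of_ne (gg_mem hσ (hu k hk).1.1 j).2 (hj k hk)) ?_ ?_
      (top_of_max hM0 hσ (hu N le_rfl).1 hmax j)
    · rw [h0]; rfl
    · rw [h0]
      have e : (fun k => v0 n m M (Sum.inl k)) = fun _ => (0 : ℝ) := rfl
      rw [e, gg_const]
      unfold TT
      change ¬ ((1 : ℝ) / 2 + ((M : ℝ) ^ 2 - 1) * (1 / 2) = (M : ℝ) ^ 2)
      intro h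
      have : (2 : ℝ) ≤ M := by exact_mod_cast hM
      nlinarith
  · left
    -- the first parts increase
    have hmono1 : ∀ k < N, ∀ i, u k (Sum.inl i) ≤ u (k + 1) (Sum.inl i) := by
      intro k hk
      rcases nested hM0 hσ (hu k hk.le) (hu (k + 1) hk) (he k hk).1 with h | h
      · exact h
      · intro i
        by_contra hlt
        push Not at hlt
        have h1 : ∑ i, u (k + 1) (Sum.inl i) + 1 ≤ ∑ i, u k (Sum.inl i) := by
          have h2 : u (k + 1) (Sum.inl i) + 1 = u k (Sum.inl i) := by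
            rcases zero_one hM0 hσ (hu k hk.le) i with a | a <;>
              rcases zero_one hM0 hσ (hu (k + 1) hk) i with b | b <;> rw [a, b] at hlt ⊢ <;>
              first | (exfalso; linarith) | norm_num
          rw [← Finset.add_sum_erase _ (fun i => u (k + 1) (Sum.inl i)) (Finset.mem_univ i),
            ← Finset.add_sum_erase _ (fun i => u k (Sum.inl i)) (Finset.mem_univ i)]
          have h3 : ∑ i ∈ Finset.univ.erase i, u (k + 1) (Sum.inl i) ≤
              ∑ i ∈ Finset.univ.erase i, u k (Sum.inl i) := Finset.sum_le_sum fun i _ => h i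
          linarith
        exact absurd (cc_lt hM0 hσ (hu (k + 1) hk).1 (hu k hk.le).1 h1)
          (not_lt.2 (he k hk).2.le)
    have hmono : ∀ k l, k ≤ l → l ≤ N → ∀ i, u k (Sum.inl i) ≤ u l (Sum.inl i) := by
      intro k l hkl
      induction l, hkl using Nat.le_induction with
      | base => exact fun _ i => le_rfl
      | succ l _ ih => exact fun hl i => (ih (by omega) i).trans (hmono1 l (by omega) i)
    refine ⟨fun i => decide (∃ k ≤ N, u k (Sum.inl (i, 0)) = 1 ∧ u k (Sum.inl (i, 1)) = 0),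
      fun j => ?_⟩
    obtain ⟨k, hk, hgk⟩ := hcol j
    have hd1 : 0 < dd σ (fun i => u k (Sum.inl i)) j := by
      unfold gg at hgk
      linarith
    obtain ⟨i, -, hi⟩ := Finset.exists_lt_of_sum_lt (s := Finset.univ) (f := fun _ => (0 : ℝ))
      (g := fun i => (σ j i : ℝ) * (u k (Sum.inl (i, 0)) - u k (Sum.inl (i, 1)))) (by
        rw [Finset.sum_const_zero]; exact hd1)
    refine ⟨i, ?_⟩
    have hs : σ j i = -1 ∨ σ j i = 0 ∨ σ j i = 1 := by
      have := abs_le.1 (hσ j i)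
      omega
    rw [decide_eq_true_iff, decide_eq_false_iff_not]
    rcases hs with hs | hs | hs
    · right
      refine ⟨hs, ?_⟩
      rintro ⟨k', hk', e1, e2⟩
      rw [hs] at hi
      have h3 : u k (Sum.inl (i, 0)) = 0 ∧ u k (Sum.inl (i, 1)) = 1 := by
        push_cast at hi
        rcases zero_one hM0 hσ (hu k hk) (i, 0) with a | a <;>
          rcases zero_one hM0 hσ (hu k hk) (i, 1) with b | b <;> rw [a, b] at hi <;>
          first | exact ⟨a, b⟩ | (exfalso; linarith)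
      rcases le_total k k' with h | h
      · have := hmono k k' h hk' (i, 1)
        rw [h3.2, e2] at this
        linarith
      · have := hmono k' k h hk (i, 0)
        rw [h3.1, e1] at this
        linarith
    · rw [hs] at hi
      simp at hi
    · left
      refine ⟨hs, k, hk, ?_⟩
      rw [hs] at hi
      push_cast at hi
      rcases zero_one hM0 hσ (hu k hk) (i, 0) with a | a <;>
        rcases zero_one hM0 hσ (hu k hk) (i, 1) with b | b <;> rw [a, b] at hi <;>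
        first | exact ⟨a, b⟩ | (exfalso; linarith)

end Pool.Agent.X239.GP
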