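import Pool.Agent.X239.GP.Tr
import Pool.Agent.X239.CV.PolyT
set_option autoImplicit false

/-!
# The linear program is computable in polynomial time, and its size
-/

namespace Pool.Agent.NPC.X239GP

open Pool.Agent.Y644.QS Pool.Agent.Y644.QW Pool.Agent.H687R2.LLL Pool.Agent.NPC.H532.RP
  Pool.Agent.NPC.Y644 Pool.Agent.X239.GP

variable {α : Type} [TEnc α]

theorem poly_sgn {b : α → Bool} (hb : Poly b) : Poly (fun a => sgn (b a)) := by
  unfold sgn
  fun_prop

attribute [local fun_prop] poly_sgn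

theorem poly_sg {c : α → Cl} {i : α → ℕ} (hc : Poly c) (hi : Poly i) :
    Poly (fun a => sg (c a) (i a)) := by
  unfold sg
  fun_prop

attribute [local fun_prop] poly_sg

theorem poly_sgf {φ : α → List Cl} {j i : α → ℕ} (hφ : Poly φ) (hj : Poly j) (hi : Poly i) :
    Poly (fun a => sgf (φ a) (j a) (i a)) := by
  unfold sgf
  exact Poly.optElim (h := fun a c => sg c (i a)) (by fun_prop) (by fun_prop) (by fun_prop)

attribute [local fun_prop] poly_sgf

theorem upoly_n2 {φ : α → List Cl} (hφ : Poly φ) : UPoly (fun a => n2 (φ a)) := by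
  unfold n2
  fun_prop

theorem upoly_cols {φ : α → List Cl} (hφ : Poly φ) : UPoly (fun a => cols (φ a)) := by
  unfold cols
  fun_prop

attribute [local fun_prop] upoly_n2 upoly_cols

theorem poly_n2 {φ : α → List Cl} (hφ : Poly φ) : Poly (fun a => n2 (φ a)) :=
  (upoly_n2 hφ).toPoly

theorem poly_cols {φ : α → List Cl} (hφ : Poly φ) : Poly (fun a => cols (φ a)) :=
  (upoly_cols hφ).toPoly

attribute [local fun_prop] poly_n2 poly_cols

theorem poly_cX {k1 k2 k : α → ℕ} (h1 : Poly k1) (h2 : Poly k2) (h : Poly k) :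
    Poly (fun a => cX (k1 a) (k2 a) (k a)) := by
  unfold cX
  fun_prop

theorem poly_cY {φ : α → List Cl} {j : α → ℕ} {γ u1 u2 : α → ℤ} {k : α → ℕ} (hφ : Poly φ)
    (hj : Poly j) (hγ : Poly γ) (h1 : Poly u1) (h2 : Poly u2) (hk : Poly k) :
    Poly (fun a => cY (φ a) (j a) (γ a) (u1 a) (u2 a) (k a)) := by
  unfold cY
  fun_prop

attribute [local fun_prop] poly_cX poly_cY

theorem poly_rowX {φ : α → List Cl} {k1 k2 : α → ℕ} {b : α → ℤ} (hφ : Poly φ) (h1 : Poly k1)
    (h2 : Poly k2) (hb : Poly b) : Poly (fun a => rowX (φ a) (k1 a) (k2 a) (b a)) := by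
  unfold rowX
  exact Poly.pair (Poly.map (F := fun a k => cX (k1 a) (k2 a) k) (UPoly.range (upoly_cols hφ))
    (by fun_prop)) hb

theorem poly_rowY {φ : α → List Cl} {j : α → ℕ} {γ u1 u2 b : α → ℤ} (hφ : Poly φ)
    (hj : Poly j) (hγ : Poly γ) (h1 : Poly u1) (h2 : Poly u2) (hb : Poly b) :
    Poly (fun a => rowY (φ a) (j a) (γ a) (u1 a) (u2 a) (b a)) := by
  unfold rowY
  exact Poly.pair (Poly.map (F := fun a k => cY (φ a) (j a) (γ a) (u1 a) (u2 a) k)
    (UPoly.range (upoly_cols hφ)) (by fun_prop)) hb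

attribute [local fun_prop] poly_rowX poly_rowY

theorem poly_rowsC {φ : α → List Cl} {M j : α → ℕ} (hφ : Poly φ) (hM : UPoly M) (hj : Poly j) :
    Poly (fun a => rowsC (φ a) (M a) (j a)) := by
  have hM' : Poly M := hM.toPoly
  unfold rowsC
  refine Poly.append (Poly.flatMap (F := fun a (r : ℕ) =>
    [rowY (φ a) (j a) (r * (r + 1) + 1) (2 * (2 * r + 1)) (-2)
      (r * (r + 1) - 1 + 2 * (2 * r + 1) * M a),
      rowY (φ a) (j a) (r * (r + 1) + 1) (-(2 * (2 * r + 1))) (-2)
        (r * (r + 1) - 1 - 2 * (2 * r + 1) * M a)]) (UPoly.range hM) ?_) ?_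
  · fun_prop
  · fun_prop

theorem poly_rows {φ : α → List Cl} {M : α → ℕ} (hφ : Poly φ) (hM : UPoly M) :
    Poly (fun a => rows (φ a) (M a)) := by
  unfold rows
  refine Poly.append (Poly.append ?_ ?_) ?_
  · exact Poly.map (F := fun a s => rowX (φ a) (cols (φ a)) s 1) (Poly.const _) (by fun_prop)
  · refine Poly.flatMap (F := fun a k => (List.range 2).map fun s =>
      rowX (φ a) k (2 * (k / 2) + 2 + s) 0) (l := fun a => List.range (n2 (φ a) - 2)) ?_ ?_
    · exact UPoly.range (UPoly.of_le (n := fun a => n2 (φ a)) (by fun_prop) (by fun_prop)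
        fun a => Nat.sub_le _ _)
    · exact Poly.map (F := fun (p : α × ℕ) s => rowX (φ p.1) p.2 (2 * (p.2 / 2) + 2 + s) 0)
        (Poly.const _) (by fun_prop)
  · exact Poly.flatMap (F := fun a j => rowsC (φ a) (M a) j) (UPoly.range (by fun_prop))
      (poly_rowsC (by fun_prop) (by fun_prop) (by fun_prop))

/-- the linear program of a formula -/
def build (φ : List Cl) (M : ℕ) : Inp :=
  ((rows φ M).map fun r => r.1.map fun z => mkRat z 1, (rows φ M).map fun r => mkRat r.2 1,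
    (List.range (cols φ)).map fun k => mkRat (ccf φ M k) 1,
    (List.range (cols φ)).map fun k => mkRat (vcf φ M k).1 (vcf φ M k).2)

theorem poly_ccf {φ : α → List Cl} {M k : α → ℕ} (hφ : Poly φ) (hM : Poly M) (hk : Poly k) :
    Poly (fun a => ccf (φ a) (M a) (k a)) := by
  have h : Poly (fun a => (if k a < n2 (φ a) then
      (((φ a).length * (M a * M a) + 1 : ℕ) : ℤ) else if k a % 2 = 1 then 1 else 0)) := by
    fun_prop
  refine h.congr fun a => ?_
  unfold ccf WW
  rw [pow_two]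

theorem poly_vcf {φ : α → List Cl} {M k : α → ℕ} (hφ : Poly φ) (hM : Poly M) (hk : Poly k) :
    Poly (fun a => vcf (φ a) (M a) (k a)) := by
  unfold vcf
  fun_prop

theorem poly_build {φ : α → List Cl} {M : α → ℕ} (hφ : Poly φ) (hM : UPoly M) :
    Poly (fun a => build (φ a) (M a)) := by
  have hM' : Poly M := hM.toPoly
  have hr := poly_rows hφ hM
  unfold build
  refine Poly.pair ?_ (Poly.pair ?_ (Poly.pair ?_ ?_))
  · refine Poly.map (F := fun _ (r : List ℤ × ℤ) => r.1.map fun z => mkRat z 1) hr ?_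
    exact Poly.map (F := fun _ z => mkRat z 1) (by fun_prop) (by fun_prop)
  · exact Poly.map (F := fun _ (r : List ℤ × ℤ) => mkRat r.2 1) hr (by fun_prop)
  · refine Poly.map (F := fun a k => mkRat (ccf (φ a) (M a) k) 1) (UPoly.range (upoly_cols hφ)) ?_
    exact poly_mkRat (poly_ccf (by fun_prop) (by fun_prop) (by fun_prop)) (Poly.const _)
  · refine Poly.map (F := fun a k => mkRat (vcf (φ a) (M a) k).1 (vcf (φ a) (M a) k).2)
      (UPoly.range (upoly_cols hφ)) ?_
    have h := poly_vcf (α := α × ℕ) (φ := fun p => φ p.1) (M := fun p => M p.1) (k := fun p => p.2)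
      (by fun_prop) (by fun_prop) (by fun_prop)
    exact poly_mkRat (Poly.fst h) (Poly.snd h)

theorem row_length {φ : List Cl} {M : ℕ} {r : List ℤ × ℤ} (h : r ∈ rows φ M) :
    r.1.length = cols φ := by
  unfold rows rowsC at h
  simp only [List.mem_append, List.mem_map, List.mem_flatMap, List.mem_cons, List.not_mem_nil,
    or_false] at h
  rcases h with (⟨s, -, rfl⟩ | ⟨k, -, s, -, rfl⟩) | ⟨j, -, ⟨r', -, rfl | rfl⟩ | rfl⟩ <;>
    simp [rowX, rowY]

theorem build_eq (φ : List Cl) (M : ℕ) : build φ M =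
    Pool.Agent.Y644.QS.inp (mA φ M) (mb φ M) (mc φ M)
      (Pool.Agent.X239.GP.mv φ M) := by
  unfold build Pool.Agent.Y644.QS.inp
  refine Prod.ext ?_ (Prod.ext ?_ (Prod.ext ?_ ?_))
  · refine List.ext_getElem (by simp) fun i h1 h2 => ?_
    rw [List.getElem_map, List.getElem_ofFn]
    refine List.ext_getElem ?_ fun k h3 h4 => ?_
    · rw [List.length_map, List.length_ofFn, row_length (List.getElem_mem _)]
      rfl
    · rw [List.getElem_map, List.getElem_ofFn]
      unfold mA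
      rw [List.getD_eq_getElem?_getD, List.getElem?_eq_getElem (by simpa using h3), Rat.mkRat_one]
      rfl
  · refine List.ext_getElem (by simp) fun i h1 h2 => ?_
    rw [List.getElem_map, List.getElem_ofFn, Rat.mkRat_one]
    rfl
  · refine List.ext_getElem (by simp [cols]) fun i h1 h2 => ?_
    rw [List.getElem_map, List.getElem_ofFn, List.getElem_range, Rat.mkRat_one]
    rfl
  · refine List.ext_getElem (by simp [cols]) fun i h1 h2 => ?_
    rw [List.getElem_map, List.getElem_ofFn, List.getElem_range]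
    rfl

/-! ### The size -/

theorem sz_rat (q : ℚ) : sz q = sz q.num + sz q.den + 1 := by
  change sz ((q.num, q.den) : ℤ × ℕ) = _
  rw [sz_pair]

theorem sz_mk {z : ℤ} {t : ℕ} (h : z.natAbs < 2 ^ t) : sz (mkRat z 1) ≤ 4 * t + 19 := by
  have e1 : (mkRat z 1).num = z := by rw [Rat.mkRat_one]; rfl
  have e2 : (mkRat z 1).den = 1 := by rw [Rat.mkRat_one]; rfl
  rw [sz_rat, e1, e2]
  have h1 := sz_int_le z
  have h2 := Nat.size_le.2 h
  have h3 := sz_nat_le 1
  have h4 : Nat.size 1 = 1 := Nat.size_one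
  omega

theorem sz_half : sz (mkRat 1 2) ≤ 19 := by
  have e : mkRat 1 2 = (1 / 2 : ℚ) := by norm_num [Rat.mkRat_eq_div]
  have e1 : (mkRat 1 2).num = 1 := by rw [e]; norm_num
  have e2 : (mkRat 1 2).den = 2 := by rw [e]; norm_num
  rw [sz_rat, e1, e2]
  have h1 := sz_int_le 1
  have h3 := sz_nat_le 2
  have h4 : Nat.size 1 = 1 := Nat.size_one
  have h5 : Nat.size 2 ≤ 2 := Nat.size_le.2 (by norm_num)
  have h6 : (1 : ℤ).natAbs = 1 := rfl
  rw [h6] at h1
  omega

theorem abs_sgf_le (φ : List Cl) (j i : ℕ) : |sgf φ j i| ≤ 1 := by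
  unfold sgf
  cases φ[j]? with
  | none => simp
  | some c => exact abs_sg_le c i

theorem abs_cX_le (k1 k2 k : ℕ) : |cX k1 k2 k| ≤ 1 := by
  unfold cX
  split_ifs <;> simp

theorem abs_cY_le (φ : List Cl) (j : ℕ) {γ u1 u2 B : ℤ} (k : ℕ) (h1 : |γ| ≤ B) (h2 : |u1| ≤ B)
    (h3 : |u2| ≤ B) : |cY φ j γ u1 u2 k| ≤ B := by
  have h0 : 0 ≤ B := (abs_nonneg _).trans h1
  have h4 := abs_sgf_le φ j (k / 2)
  unfold cY
  split_ifs
  · rw [mul_one, abs_mul]
    nlinarith [abs_nonneg γ, abs_nonneg (sgf φ j (k / 2))]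
  · rw [mul_neg_one, abs_neg, abs_mul]
    nlinarith [abs_nonneg γ, abs_nonneg (sgf φ j (k / 2))]
  · exact h2
  · exact h3
  · simpa using h0

theorem row_bound {φ : List Cl} {M : ℕ} (hM : 1 ≤ M) {r : List ℤ × ℤ} (h : r ∈ rows φ M) :
    (∀ z ∈ r.1, |z| ≤ 6 * (M : ℤ) ^ 2) ∧ |r.2| ≤ 6 * (M : ℤ) ^ 2 := by
  have hM' : (1 : ℤ) ≤ M := by exact_mod_cast hM
  have hB : (1 : ℤ) ≤ 6 * (M : ℤ) ^ 2 := by nlinarith
  unfold rows rowsC at h
  simp only [List.mem_append, List.mem_map, List.mem_flatMap, List.mem_cons, List.not_mem_nil,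
    or_false] at h
  rcases h with (⟨s, -, rfl⟩ | ⟨k, -, s, -, rfl⟩) | ⟨j, -, ⟨r', hr', rfl | rfl⟩ | rfl⟩
  · refine ⟨fun z hz => ?_, ?_⟩
    · simp only [rowX, List.mem_map] at hz
      obtain ⟨k, -, rfl⟩ := hz
      exact (abs_cX_le _ _ _).trans hB
    · simpa [rowX] using hB
  · refine ⟨fun z hz => ?_, ?_⟩
    · simp only [rowX, List.mem_map] at hz
      obtain ⟨k, -, rfl⟩ := hz
      exact (abs_cX_le _ _ _).trans hB
    · simp only [rowX, abs_zero]
      linarith
  · rw [List.mem_range] at hr'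
    have h1 : (r' : ℤ) + 1 ≤ M := by exact_mod_cast hr'
    have h0 : (0 : ℤ) ≤ r' := by positivity
    refine ⟨fun z hz => ?_, ?_⟩
    · simp only [rowY, List.mem_map] at hz
      obtain ⟨k, -, rfl⟩ := hz
      refine abs_cY_le _ _ _ ?_ ?_ ?_ <;> rw [abs_le] <;> constructor <;> nlinarith
    · simp only [rowY]
      rw [abs_le]
      constructor <;> nlinarith
  · rw [List.mem_range] at hr'
    have h1 : (r' : ℤ) + 1 ≤ M := by exact_mod_cast hr'
    have h0 : (0 : ℤ) ≤ r' := by positivity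
    refine ⟨fun z hz => ?_, ?_⟩
    · simp only [rowY, List.mem_map] at hz
      obtain ⟨k, -, rfl⟩ := hz
      refine abs_cY_le _ _ _ ?_ ?_ ?_ <;> rw [abs_le] <;> constructor <;> nlinarith
    · simp only [rowY]
      rw [abs_le]
      constructor <;> nlinarith
  · refine ⟨fun z hz => ?_, ?_⟩
    · simp only [rowY, List.mem_map] at hz
      obtain ⟨k, -, rfl⟩ := hz
      refine abs_cY_le _ _ _ ?_ ?_ ?_ <;> rw [abs_le] <;> constructor <;> nlinarith
    · simp only [rowY]
      rw [abs_le]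
      constructor <;> nlinarith

theorem rows_length (φ : List Cl) (M : ℕ) :
    (rows φ M).length = 2 + (n2 φ - 2) * 2 + φ.length * (2 * M + 1) := by
  have h1 : ∀ j, (rowsC φ M j).length = 2 * M + 1 := by
    intro j
    unfold rowsC
    simp [mul_comm]
  unfold rows
  simp only [List.length_append, List.length_map, List.length_range, List.length_flatMap, h1]
  simp

theorem build_size {φ : List Cl} {M t : ℕ} (hφ : 1 ≤ φ.length) (hM : 1 ≤ M)
    (ht : 6 * φ.length * M ^ 2 < 2 ^ t) :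
    sz (build φ M) ≤ 167 * φ.length ^ 2 * M * (4 * t + 20) := by
  have hbt : ∀ z : ℤ, |z| ≤ 6 * (M : ℤ) ^ 2 → z.natAbs < 2 ^ t := by
    intro z hz
    refine lt_of_le_of_lt ?_ ht
    have h1 : (z.natAbs : ℤ) ≤ 6 * (M : ℤ) ^ 2 := by rwa [Int.natCast_natAbs]
    have h2 : z.natAbs ≤ 6 * M ^ 2 := by exact_mod_cast h1
    nlinarith [Nat.zero_le (M ^ 2)]
  have hR : (rows φ M).length ≤ 15 * φ.length * M := by
    rw [rows_length]
    unfold n2
    have : φ.length ≤ φ.length * M := Nat.le_mul_of_pos_right _ hM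
    have h2 : φ.length * (2 * M + 1) = 2 * (φ.length * M) + φ.length := by ring
    rw [h2, show 15 * φ.length * M = 15 * (φ.length * M) by ring]
    omega
  have hc : cols φ = 8 * φ.length := by unfold cols; ring
  have hA : sz ((rows φ M).map fun r => r.1.map fun z => mkRat z 1) ≤
      (15 * φ.length * M) * (8 * φ.length * (4 * t + 20) + 2) + 1 := by
    refine (sz_le_length_mul _ (8 * φ.length * (4 * t + 20) + 1) ?_).trans ?_
    · intro l hl
      rw [List.mem_map] at hl
      obtain ⟨r, hr, rfl⟩ := hl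
      refine (sz_le_length_mul _ (4 * t + 19) ?_).trans ?_
      · intro q hq
        rw [List.mem_map] at hq
        obtain ⟨z, hz, rfl⟩ := hq
        exact sz_mk (hbt z ((row_bound hM hr).1 z hz))
      · rw [List.length_map, row_length hr, hc]
    · rw [List.length_map]
      exact Nat.add_le_add_right (Nat.mul_le_mul_right _ hR) 1
  have hb : sz ((rows φ M).map fun r => mkRat r.2 1) ≤
      (15 * φ.length * M) * (4 * t + 20) + 1 := by
    refine (sz_le_length_mul _ (4 * t + 19) ?_).trans ?_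
    · intro q hq
      rw [List.mem_map] at hq
      obtain ⟨r, hr, rfl⟩ := hq
      exact sz_mk (hbt _ (row_bound hM hr).2)
    · rw [List.length_map]
      exact Nat.add_le_add_right (Nat.mul_le_mul_right _ hR) 1
  have hcc : sz ((List.range (cols φ)).map fun k => mkRat (ccf φ M k) 1) ≤
      8 * φ.length * (4 * t + 20) + 1 := by
    refine (sz_le_length_mul _ (4 * t + 19) ?_).trans ?_
    · intro q hq
      rw [List.mem_map] at hq
      obtain ⟨k, -, rfl⟩ := hq
      refine sz_mk (lt_of_le_of_lt ?_ ht)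
      have h3 : 1 ≤ 6 * φ.length * M ^ 2 := by
        have : 0 < 6 * φ.length * M ^ 2 := by positivity
        omega
      unfold ccf WW
      split_ifs
      · have h4 : 1 ≤ φ.length * M ^ 2 := by
          have : 0 < φ.length * M ^ 2 := by positivity
          omega
        rw [Int.natAbs_natCast]
        nlinarith
      · simpa using h3
      · simp
    · rw [List.length_map, List.length_range, hc]
  have hv : sz ((List.range (cols φ)).map fun k => mkRat (vcf φ M k).1 (vcf φ M k).2) ≤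
      8 * φ.length * (4 * t + 20) + 1 := by
    refine (sz_le_length_mul _ (4 * t + 19) ?_).trans ?_
    · intro q hq
      rw [List.mem_map] at hq
      obtain ⟨k, -, rfl⟩ := hq
      unfold vcf
      split_ifs
      · refine sz_mk ?_
        simp
      · refine sz_mk (lt_of_le_of_lt ?_ ht)
        rw [Int.natAbs_natCast]
        nlinarith
      · exact sz_half.trans (by omega)
    · rw [List.length_map, List.length_range, hc]
  unfold build
  rw [sz_pair, sz_pair, sz_pair]
  set F := 4 * t + 20 with hF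
  set μ := φ.length with hμ
  have h1 : μ ≤ μ * M := Nat.le_mul_of_pos_right _ hM
  have h2 : μ * M ≤ μ ^ 2 * M := by nlinarith
  have hF1 : 20 ≤ F := by omega
  have h3 : (15 * μ * M) * (8 * μ * F + 2) + 1 ≤ 135 * (μ ^ 2 * M * F) + 1 := by
    have : 2 ≤ μ * F := by nlinarith
    nlinarith [Nat.zero_le (μ * M)]
  have h4 : (15 * μ * M) * F + 1 ≤ 15 * (μ ^ 2 * M * F) + 1 := by nlinarith
  have h5 : 8 * μ * F + 1 ≤ 8 * (μ ^ 2 * M * F) + 1 := by
    have : μ * F ≤ μ ^ 2 * M * F := Nat.mul_le_mul_right F (h1.trans h2)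
    nlinarith
  have h6 : 7 ≤ μ ^ 2 * M * F := by
    have : 1 ≤ μ ^ 2 * M := le_trans (by nlinarith) h2
    nlinarith
  have h7 : 167 * μ ^ 2 * M * F = 167 * (μ ^ 2 * M * F) := by ring
  omega

/-- the length of the chains -/
def MM (k : ℕ) (φ : List Cl) : ℕ := (10020 * k * φ.length) ^ (3 * k)

theorem mm_pos {k : ℕ} {φ : List Cl} (hk : 1 ≤ k) (hφ : 1 ≤ φ.length) : 2 ≤ MM k φ := by
  unfold MM
  have h1 : 2 ≤ 10020 * k * φ.length := by nlinarith
  calc 2 = 2 ^ 1 := rfl
    _ ≤ 2 ^ (3 * k) := Nat.pow_le_pow_right (by norm_num) (by omega)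
    _ ≤ _ := Nat.pow_le_pow_left h1 _

theorem length_upper {k : ℕ} {φ : List Cl} (hk : 1 ≤ k) (hφ : 1 ≤ φ.length) :
    sz (build φ (MM k φ)) ^ (k - 1) ≤ MM k φ ^ k := by
  set μ := φ.length with hμ
  set C := 10020 * k with hC
  have hM2 := mm_pos hk hφ
  have ht : 6 * μ * MM k φ ^ 2 < 2 ^ (3 + μ + 6 * k * (C * μ)) := by
    have h1 : μ < 2 ^ μ := Nat.lt_two_pow_self
    have h2 : C * μ < 2 ^ (C * μ) := Nat.lt_two_pow_self
    have h3 : MM k φ ≤ 2 ^ (3 * k * (C * μ)) := by
      unfold MM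
      calc (10020 * k * φ.length) ^ (3 * k) ≤ (2 ^ (C * μ)) ^ (3 * k) :=
            Nat.pow_le_pow_left h2.le _
        _ = 2 ^ (3 * k * (C * μ)) := by rw [← pow_mul, mul_comm]
    have h4 : MM k φ ^ 2 ≤ 2 ^ (6 * k * (C * μ)) := by
      calc MM k φ ^ 2 ≤ (2 ^ (3 * k * (C * μ))) ^ 2 := Nat.pow_le_pow_left h3 2
        _ = _ := by rw [← pow_mul]; congr 1; ring
    rw [pow_add, pow_add]
    have h5 : 6 * μ < 2 ^ 3 * 2 ^ μ := by omega
    calc 6 * μ * MM k φ ^ 2 < 2 ^ 3 * 2 ^ μ * MM k φ ^ 2 :=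
          Nat.mul_lt_mul_of_pos_right h5 (by positivity)
      _ ≤ _ := Nat.mul_le_mul_left _ h4
  have h1 := build_size hφ (by omega) ht
  have hC1 : 10020 ≤ C := by omega
  have h2 : 4 * (3 + μ + 6 * k * (C * μ)) + 20 ≤ 60 * (k * (C * μ)) := by
    have : μ ≤ C * μ := Nat.le_mul_of_pos_left _ (by omega)
    have h3 : C * μ ≤ k * (C * μ) := Nat.le_mul_of_pos_left _ hk
    have h4 : 10020 ≤ C * μ := le_trans hC1 (Nat.le_mul_of_pos_right _ hφ)
    have h6 : 6 * k * (C * μ) = 6 * (k * (C * μ)) := by ring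
    rw [h6]
    omega
  have h3 : sz (build φ (MM k φ)) ≤ (C * μ) ^ 3 * MM k φ := by
    refine h1.trans ?_
    calc 167 * μ ^ 2 * MM k φ * (4 * (3 + μ + 6 * k * (C * μ)) + 20)
        ≤ 167 * μ ^ 2 * MM k φ * (60 * (k * (C * μ))) := Nat.mul_le_mul_left _ h2
      _ = (C * C * μ ^ 3) * MM k φ := by rw [hC]; ring
      _ ≤ (C * μ) ^ 3 * MM k φ := by
        refine Nat.mul_le_mul_right _ ?_
        rw [mul_pow, pow_succ C 2, pow_two]
        have : C * C ≤ C * C * C := Nat.le_mul_of_pos_right _ (by omega)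
        exact Nat.mul_le_mul_right _ this
  calc sz (build φ (MM k φ)) ^ (k - 1) ≤ ((C * μ) ^ 3 * MM k φ) ^ (k - 1) :=
        Nat.pow_le_pow_left h3 _
    _ = (C * μ) ^ (3 * (k - 1)) * MM k φ ^ (k - 1) := by rw [mul_pow, ← pow_mul]
    _ ≤ MM k φ * MM k φ ^ (k - 1) := by
      refine Nat.mul_le_mul_right _ ?_
      exact Nat.pow_le_pow_right (by positivity) (by omega)
    _ = MM k φ ^ k := by
      rw [← pow_succ']
      congr 1
      omega

theorem length_lower {k : ℕ} {φ : List Cl} (hφ : 1 ≤ φ.length) :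
    (6 * φ.length) ^ k ≤ sz (build φ (MM k φ)) := by
  have h1 : (6 * φ.length) ^ k ≤ MM k φ := by
    rcases Nat.eq_zero_or_pos k with h | h
    · subst h; simp [MM]
    · unfold MM
      calc (6 * φ.length) ^ k ≤ (10020 * k * φ.length) ^ k :=
            Nat.pow_le_pow_left (Nat.mul_le_mul_right _ (by omega)) _
        _ ≤ _ := Nat.pow_le_pow_right (by positivity) (by omega)
  have h2 : MM k φ ≤ (rows φ (MM k φ)).length := by
    rw [rows_length]
    have : MM k φ ≤ φ.length * (2 * MM k φ + 1) := by nlinarith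
    omega
  have h3 : (rows φ (MM k φ)).length < sz (build φ (MM k φ)) := by
    have h4 := length_lt_sz ((rows φ (MM k φ)).map fun r => r.1.map fun z => mkRat z 1)
    rw [List.length_map] at h4
    unfold build
    rw [sz_pair]
    omega
  omega

theorem upoly_MM {α : Type} [TEnc α] {φ : α → List Cl} (hφ : Poly φ) (k : ℕ) :
    UPoly (fun a => MM k (φ a)) := by
  unfold MM
  exact UPoly_pow (UPoly.mul (UPoly.const _) (UPoly.length hφ)) _

end Pool.Agent.NPC.X239GP
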