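import Pool.Agent.X239.GP.LP
set_option autoImplicit false

/-!
# The linear program in standard form
-/

namespace Pool.Agent.X239.GP

open Set
open Pool.Agent.NPC (Lit Distinct3 Bounded3 SAT3)

section Gen

variable {E F : Type*} [NormedAddCommGroup E] [NormedSpace ℝ E] [NormedAddCommGroup F]
  [NormedSpace ℝ F]

/-- monotone paths from the start `x 0` to a maximum of `f` on `P` -/
def MPath (P : Set E) (f : E → ℝ) (N : ℕ) (x : ℕ → E) : Prop :=
  (∀ k ≤ N, x k ∈ P.extremePoints ℝ) ∧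
    (∀ k < N, IsExposed ℝ P (segment ℝ (x k) (x (k + 1))) ∧ f (x k) < f (x (k + 1))) ∧
    ∀ y ∈ P, f y ≤ f (x N)

theorem exposed_pre (L : E ≃L[ℝ] F) {P S : Set F} (h : IsExposed ℝ P S) :
    IsExposed ℝ (L ⁻¹' P) (L ⁻¹' S) := by
  rintro ⟨z, hz⟩
  obtain ⟨l, hl⟩ := h ⟨L z, hz⟩
  refine ⟨l.comp (L : E →L[ℝ] F), ?_⟩
  ext w
  rw [mem_preimage, hl]
  constructor
  · rintro ⟨h1, h2⟩
    exact ⟨h1, fun y hy => h2 (L y) hy⟩
  · rintro ⟨h1, h2⟩
    refine ⟨h1, fun y hy => ?_⟩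
    have := h2 (L.symm y) (by simpa using hy)
    simpa using this

theorem extreme_pre (L : E ≃L[ℝ] F) {P : Set F} {z : F} (h : z ∈ P.extremePoints ℝ) :
    L.symm z ∈ (L ⁻¹' P).extremePoints ℝ := by
  refine ⟨by simpa using h.1, fun x1 h1 x2 h2 hx => ?_⟩
  obtain ⟨a, b, ha, hb, hab, e⟩ := hx
  have h3 : z ∈ openSegment ℝ (L x1) (L x2) := by
    refine ⟨a, b, ha, hb, hab, ?_⟩
    rw [← map_smul, ← map_smul, ← map_add, e]
    simp
  have h4 := h.2 h1 h2 h3
  rw [← h4]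
  simp

theorem preimage_segment (L : E ≃L[ℝ] F) (x y : F) :
    L ⁻¹' (segment ℝ x y) = segment ℝ (L.symm x) (L.symm y) := by
  ext w
  constructor
  · rintro ⟨a, b, ha, hb, hab, e⟩
    refine ⟨a, b, ha, hb, hab, ?_⟩
    rw [← map_smul, ← map_smul, ← map_add, e]
    simp
  · rintro ⟨a, b, ha, hb, hab, e⟩
    refine ⟨a, b, ha, hb, hab, ?_⟩
    rw [← e]
    simp

theorem MPath.pre (L : E ≃L[ℝ] F) {P : Set F} {f : F → ℝ} {N : ℕ} {x : ℕ → F}
    (h : MPath P f N x) : MPath (L ⁻¹' P) (fun z => f (L z)) N (fun k => L.symm (x k)) := by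
  refine ⟨fun k hk => extreme_pre L (h.1 k hk), fun k hk => ⟨?_, ?_⟩, fun y hy => ?_⟩
  · rw [← preimage_segment]
    exact exposed_pre L (h.2.1 k hk).1
  · simpa using (h.2.1 k hk).2
  · simpa using h.2.2 _ hy

end Gen

/-- the polyhedron `A x ≤ b`, `x ≥ 0` -/
def poly {m n : ℕ} (A : Fin m → Fin n → ℚ) (b : Fin m → ℚ) : Set (Fin n → ℝ) :=
  {x | (∀ i, ∑ j, (A i j : ℝ) * x j ≤ b i) ∧ ∀ j, 0 ≤ x j}

/-- the objective function `c x` -/
noncomputable def ob {n : ℕ} (c : Fin n → ℚ) (x : Fin n → ℝ) : ℝ := ∑ j, (c j : ℝ) * x j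

variable {φ : List Cl} {M : ℕ}

/-- the matrix -/
def mA (φ : List Cl) (M : ℕ) : Fin (rows φ M).length → Fin (3 * φ.length * 2 + φ.length * 2) → ℚ :=
  fun i k => (((rows φ M)[(i : ℕ)]).1.getD k 0 : ℤ)

/-- the right-hand side -/
def mb (φ : List Cl) (M : ℕ) : Fin (rows φ M).length → ℚ :=
  fun i => (((rows φ M)[(i : ℕ)]).2 : ℤ)

/-- the coefficient of the objective function -/
def ccf (φ : List Cl) (M k : ℕ) : ℤ :=
  if k < n2 φ then (WW φ.length M : ℤ) else if k % 2 = 1 then 1 else 0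

/-- the objective function -/
def mc (φ : List Cl) (M : ℕ) : Fin (3 * φ.length * 2 + φ.length * 2) → ℚ :=
  fun k => (ccf φ M k : ℤ)

/-- the coordinate of the start, numerator and denominator -/
def vcf (φ : List Cl) (M k : ℕ) : ℤ × ℕ :=
  if k < n2 φ then (0, 1) else if k % 2 = 0 then ((M : ℤ), 1) else (1, 2)

/-- the start -/
def mv (φ : List Cl) (M : ℕ) : Fin (3 * φ.length * 2 + φ.length * 2) → ℚ :=
  fun k => mkRat (vcf φ M k).1 (vcf φ M k).2

theorem poly_eq_PR : poly (mA φ M) (mb φ M) = PR φ M := by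
  ext z
  unfold poly PR mA mb ev
  simp only [mem_ofPred_eq]
  refine and_congr ?_ Iff.rfl
  constructor
  · intro h r hr
    obtain ⟨i, hi, rfl⟩ := List.getElem_of_mem hr
    have := h ⟨i, hi⟩
    simp only [Rat.cast_intCast] at this
    exact this
  · intro h i
    have := h _ (List.getElem_mem i.2)
    simp only [Rat.cast_intCast]
    exact this

/-- the equivalence -/
noncomputable def LL (φ : List Cl) : V φ ≃L[ℝ] (Idx (3 * φ.length) φ.length → ℝ) :=
  (LinearEquiv.funCongrLeft ℝ ℝ (eq (3 * φ.length) φ.length)).toContinuousLinearEquiv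

theorem LL_apply (z : V φ) : LL φ z = wz z := rfl

theorem poly_eq (hφ : φ ≠ []) : poly (mA φ M) (mb φ M) = LL φ ⁻¹' (PG (sm φ) M) := by
  rw [poly_eq_PR]
  ext z
  rw [mem_PR hφ, mem_preimage, LL_apply]

theorem ob_eq (z : V φ) : ob (mc φ M) z = CC M (LL φ z) := by
  unfold ob mc
  have e : ∀ k : Fin (3 * φ.length * 2 + φ.length * 2),
      (((ccf φ M k : ℤ) : ℚ) : ℝ) * z k = ((ccf φ M k : ℤ) : ℝ) * z k := fun k => by
    rw [Rat.cast_intCast]
  rw [Finset.sum_congr rfl fun k _ => e k, sum_eq (fun k => ((ccf φ M k : ℤ) : ℝ)) z]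
  have e1 : ∀ i : Fin (3 * φ.length), ((ccf φ M (2 * i) : ℤ) : ℝ) = WW φ.length M := by
    intro i
    unfold ccf n2
    rw [if_pos (by omega)]
    push_cast; rfl
  have e2 : ∀ i : Fin (3 * φ.length), ((ccf φ M (2 * i + 1) : ℤ) : ℝ) = WW φ.length M := by
    intro i
    unfold ccf n2
    rw [if_pos (by omega)]
    push_cast; rfl
  have e3 : ∀ j : Fin φ.length, ((ccf φ M (3 * φ.length * 2 + 2 * j) : ℤ) : ℝ) = 0 := by
    intro i
    unfold ccf n2
    rw [if_neg (by omega), if_neg (by omega)]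
    push_cast; rfl
  have e4 : ∀ j : Fin φ.length, ((ccf φ M (3 * φ.length * 2 + 2 * j + 1) : ℤ) : ℝ) = 1 := by
    intro i
    unfold ccf n2
    rw [if_neg (by omega), if_pos (by omega)]
    push_cast; rfl
  simp only [e1, e2, e3, e4, zero_mul, one_mul, zero_add]
  unfold CC
  rw [LL_apply, Fintype.sum_prod_type, Finset.mul_sum]
  congr 1
  refine Finset.sum_congr rfl fun i _ => ?_
  rw [Fin.sum_univ_two]
  ring

theorem LL_start : LL φ (fun k => (mv φ M k : ℝ)) = v0 (3 * φ.length) φ.length M := by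
  rw [LL_apply]
  funext p
  have h0 : wz (fun k => (mv φ M k : ℝ)) p =
    ((mkRat (vcf φ M (eq _ _ p)).1 (vcf φ M (eq _ _ p)).2 : ℚ) : ℝ) := rfl
  rw [h0]
  unfold vcf
  rcases p with ⟨i, s⟩ | ⟨j, s⟩
  · rw [eq_inl]
    have : (s : ℕ) + 2 * i < n2 φ := by unfold n2; omega
    rw [if_pos this]
    simp [v0]
  · rw [eq_inr]
    have : ¬ 3 * φ.length * 2 + ((s : ℕ) + 2 * j) < n2 φ := by unfold n2; omega
    rw [if_neg this]
    fin_cases s
    · rw [if_pos (by simp)]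
      simp [v0, Rat.mkRat_one]
    · rw [if_neg (by simp)]
      simp [v0]
      norm_num [Rat.mkRat_eq_div]

theorem start_extreme (hφ : φ ≠ []) (hM : 0 < M) :
    (fun k => (mv φ M k : ℝ)) ∈ (poly (mA φ M) (mb φ M)).extremePoints ℝ := by
  rw [poly_eq hφ]
  have h := extreme_pre (LL φ) (v0_extreme (σ := sm φ) hM (abs_sm_le φ))
  rw [← LL_start] at h
  simpa using h

theorem poly_bounded (hφ : φ ≠ []) (hM : 0 < M) :
    Bornology.IsBounded (poly (mA φ M) (mb φ M)) := by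
  have h : poly (mA φ M) (mb φ M) ⊆ Icc 0 (fun _ => 1 + 2 * (M : ℝ) ^ 2) := by
    intro z hz
    refine ⟨fun k => hz.2 k, fun k => ?_⟩
    rw [poly_eq hφ] at hz
    have hk : z k = LL φ z ((eq _ _).symm k) := by rw [LL_apply]; unfold wz; simp
    rw [hk]
    have h0 : (0 : ℝ) ≤ (M : ℝ) ^ 2 := by positivity
    have hM1 : (1 : ℝ) ≤ M := by exact_mod_cast hM
    rcases (eq _ _).symm k with p | ⟨j, s⟩
    · have : LL φ z (Sum.inl p) ≤ 1 := hz.1.le_one' p
      linarith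
    · have hg := gg_mem (abs_sm_le φ) hz.1 j
      have hb := hz.2.2 j
      obtain ⟨q1, q2, hq, e1, e2⟩ := exists_mix hM hg.2 hb
      have h1 := blk_nonneg hM hg.1 hb
      fin_cases s
      · have h2 := hb.1 0 hM 1 (Or.inl rfl)
        simp only [Nat.cast_zero] at h2
        have h3 : LL φ z (Sum.inr (j, 0)) ≤ M + (M : ℝ) ^ 2 := by linarith [h1.2.2, hg.1]
        change LL φ z (Sum.inr (j, 0)) ≤ _
        nlinarith
      · change LL φ z (Sum.inr (j, 1)) ≤ _
        linarith [h1.2.2]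
  exact (Metric.isBounded_Icc _ _).subset h

/-- Short paths from satisfying assignments. -/
theorem short_lp (hd : Distinct3 φ) (hb : Bounded3 φ) (hφ : φ ≠ []) (hM : 0 < M) (h : SAT3 φ) :
    ∃ x : ℕ → V φ, x 0 = (fun k => (mv φ M k : ℝ)) ∧
      MPath (poly (mA φ M) (mb φ M)) (ob (mc φ M)) (6 * φ.length) x := by
  obtain ⟨u, h1, h2, h3, h4⟩ := short_path hM (abs_sm_le φ) ((sat_iff hd hb).1 h)
  refine ⟨fun k => (LL φ).symm (u k), ?_, ?_⟩
  · simp only
    rw [h2, ← LL_start]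
    simp
  · have h5 : MPath (PG (sm φ) M) (CC M) (2 * (3 * φ.length)) u := ⟨h1, h3, h4⟩
    have h6 := h5.pre (LL φ)
    rw [← poly_eq hφ] at h6
    have e : (fun z => CC M (LL φ z)) = ob (mc φ M) := by
      funext z; rw [ob_eq]
    rw [e, show 2 * (3 * φ.length) = 6 * φ.length by ring] at h6
    exact h6

/-- Long paths for unsatisfiable formulas. -/
theorem long_lp (hd : Distinct3 φ) (hb : Bounded3 φ) (hφ : φ ≠ []) (hM : 2 ≤ M) (h : ¬ SAT3 φ)
    {N : ℕ} {x : ℕ → V φ} (h0 : x 0 = fun k => (mv φ M k : ℝ))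
    (hx : MPath (poly (mA φ M) (mb φ M)) (ob (mc φ M)) N x) : M ≤ N := by
  have h1 := hx.pre (LL φ).symm
  have e : (LL φ).symm ⁻¹' (poly (mA φ M) (mb φ M)) = PG (sm φ) M := by
    rw [poly_eq hφ]
    ext z
    simp
  have e2 : (fun z => ob (mc φ M) ((LL φ).symm z)) = CC M := by
    funext z
    rw [ob_eq]
    simp
  rw [e, e2] at h1
  rcases sat_or_long hM (abs_sm_le φ) h1.1 (by
    simp only [ContinuousLinearEquiv.symm_symm]
    rw [h0, LL_start]) h1.2.1 h1.2.2 with h2 | h2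
  · exact absurd ((sat_iff hd hb).2 h2) h
  · exact h2

end Pool.Agent.X239.GP
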