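import Pool.Agent.X239.GP.Low
set_option autoImplicit false

/-!
# Short paths from satisfying assignments
-/

namespace Pool.Agent.X239.GP

open Set

section Gen

variable {E : Type*} [AddCommGroup E] [Module ℝ E] [TopologicalSpace E] [IsTopologicalAddGroup E]
  [ContinuousSMul ℝ E] [T2Space E] [FiniteDimensional ℝ E] {P S : Set E}

theorem exposed_of_slack (l : E →ₗ[ℝ] ℝ) (K : ℝ) (sl : E → ℝ) (h : ∀ z, l z = K - sl z)
    (h0 : ∀ z ∈ P, 0 ≤ sl z) (hS : ∀ z, z ∈ S ↔ z ∈ P ∧ sl z = 0) (hne : S.Nonempty) :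
    IsExposed ℝ P S := by
  intro _
  refine ⟨LinearMap.toContinuousLinearMap l, ?_⟩
  obtain ⟨z0, hz0⟩ := hne
  have h1 := (hS z0).1 hz0
  ext z
  rw [hS]
  constructor
  · rintro ⟨hz, hs⟩
    refine ⟨hz, fun y hy => ?_⟩
    have h2 := h0 y hy
    simp only [LinearMap.coe_toContinuousLinearMap']
    rw [h, h, hs]
    linarith
  · rintro ⟨hz, hm⟩
    refine ⟨hz, le_antisymm ?_ (h0 z hz)⟩
    have h2 := hm z0 h1.1
    simp only [LinearMap.coe_toContinuousLinearMap'] at h2
    rw [h, h, h1.2] at h2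
    linarith

omit [IsTopologicalAddGroup E] [ContinuousSMul ℝ E] [T2Space E] [FiniteDimensional ℝ E] in
theorem extreme_of_exposed {z : E} (h : IsExposed ℝ P {z}) : z ∈ P.extremePoints ℝ :=
  exposedPoints_subset_extremePoints (exposed_point_def.2 (by
    obtain ⟨l, hl⟩ := h ⟨z, rfl⟩
    have h1 : z ∈ {x | x ∈ P ∧ ∀ y ∈ P, l y ≤ l x} := hl ▸ rfl
    refine ⟨h1.1, l, fun y hy => ⟨h1.2 y hy, fun h2 => ?_⟩⟩
    have h3 : y ∈ {x | x ∈ P ∧ ∀ y ∈ P, l y ≤ l x} := ⟨hy, fun w hw => (h1.2 w hw).trans h2⟩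
    rw [← hl] at h3
    exact h3))

end Gen

variable {n m : ℕ} {σ : Fin m → Fin n → ℤ} {M : ℕ}

theorem dd_smul (c : ℝ) (x : Fin n × Fin 2 → ℝ) (j : Fin m) : dd σ (c • x) j = c * dd σ x j := by
  unfold dd
  rw [Finset.mul_sum]
  refine Finset.sum_congr rfl fun i _ => ?_
  simp only [Pi.smul_apply, smul_eq_mul]
  ring

/-- the point with given first part and given labels -/
noncomputable def pt (σ : Fin m → Fin n → ℤ) (M : ℕ) (lab : Fin m → Bool)
    (x : Fin n × Fin 2 → ℝ) : Idx n m → ℝ :=
  Sum.elim x fun p =>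
    if lab p.1 = true then
      if p.2 = 0 then (M : ℝ) + M * (1 - gg σ x p.1) else (M : ℝ) ^ 2 - ((M : ℝ) ^ 2 - 1) * gg σ x p.1
    else if p.2 = 0 then (M : ℝ) else gg σ x p.1

theorem pt_mem (hM : 0 < M) (hσ : ∀ j i, |σ j i| ≤ 1) (lab : Fin m → Bool)
    {x : Fin n × Fin 2 → ℝ} (hx : InX x) : pt σ M lab x ∈ PG σ M := by
  have hb : ∀ j, Blk M (gg σ x j) (pt σ M lab x (Sum.inr (j, 0)))
      (pt σ M lab x (Sum.inr (j, 1))) := by
    intro j
    unfold pt
    simp only [Sum.elim_inr]
    cases hl : lab j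
    · exact blk_bot (gg_mem hσ hx j).2
    · exact blk_top (gg_mem hσ hx j).2
  refine ⟨hx, ?_, hb⟩
  rintro ⟨j, s⟩
  have h1 := blk_nonneg hM (gg_mem hσ hx j).1 (hb j)
  fin_cases s
  · exact h1.1
  · exact h1.2.1

/-- the face where the coordinates `A` are one, the coordinates `B` are zero, and the blocks have
given labels -/
theorem exposed_face (hM : 0 < M) (hσ : ∀ j i, |σ j i| ≤ 1) (A B : Fin n × Fin 2 → Prop)
    (lab : Fin m → Bool) (hAB : ∀ k, A k → ¬ B k) (S : Set (Idx n m → ℝ))
    (hS : ∀ z, z ∈ S ↔ ∃ x, InX x ∧ (∀ k, A k → x k = 1) ∧ (∀ k, B k → x k = 0) ∧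
      z = pt σ M lab x) (hne : S.Nonempty) : IsExposed ℝ (PG σ M) S := by
  classical
  let l : (Idx n m → ℝ) →ₗ[ℝ] ℝ :=
    { toFun := fun z => ∑ k, (if A k then 1 else if B k then -1 else (0 : ℝ)) * z (Sum.inl k) +
        ∑ j, if lab j = true then
            (2 * (M : ℝ) - 1) * (z (Sum.inr (j, 0)) + M * (dd σ (fun k => z (Sum.inl k)) j / 2))
          else dd σ (fun k => z (Sum.inl k)) j / 2 - z (Sum.inr (j, 1))
      map_add' := by
        intro z z'
        have hd : ∀ j, dd σ (fun k => (z + z') (Sum.inl k)) j =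
            dd σ (fun k => z (Sum.inl k)) j + dd σ (fun k => z' (Sum.inl k)) j :=
          fun j => dd_add _ _ j
        have e1 : ∀ k : Fin n × Fin 2, (if A k then 1 else if B k then -1 else (0 : ℝ)) *
            (z + z') (Sum.inl k) = (if A k then 1 else if B k then -1 else (0 : ℝ)) *
              z (Sum.inl k) + (if A k then 1 else if B k then -1 else (0 : ℝ)) *
              z' (Sum.inl k) := fun k => by rw [Pi.add_apply]; ring
        have e2 : ∀ j, (if lab j = true then
            (2 * (M : ℝ) - 1) * ((z + z') (Sum.inr (j, 0)) +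
              M * (dd σ (fun k => (z + z') (Sum.inl k)) j / 2))
            else dd σ (fun k => (z + z') (Sum.inl k)) j / 2 - (z + z') (Sum.inr (j, 1))) =
            (if lab j = true then
            (2 * (M : ℝ) - 1) * (z (Sum.inr (j, 0)) + M * (dd σ (fun k => z (Sum.inl k)) j / 2))
            else dd σ (fun k => z (Sum.inl k)) j / 2 - z (Sum.inr (j, 1))) +
            (if lab j = true then
            (2 * (M : ℝ) - 1) * (z' (Sum.inr (j, 0)) + M * (dd σ (fun k => z' (Sum.inl k)) j / 2))
            else dd σ (fun k => z' (Sum.inl k)) j / 2 - z' (Sum.inr (j, 1))) := by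
          intro j
          rw [hd]
          split_ifs
          · rw [Pi.add_apply]; ring
          · rw [Pi.add_apply]; ring
        simp only [e1, e2, Finset.sum_add_distrib]
        ring
      map_smul' := by
        intro c z
        have hd : ∀ j, dd σ (fun k => (c • z) (Sum.inl k)) j =
            c * dd σ (fun k => z (Sum.inl k)) j := fun j => dd_smul c (fun k => z (Sum.inl k)) j
        have e1 : ∀ k : Fin n × Fin 2, (if A k then 1 else if B k then -1 else (0 : ℝ)) *
            (c • z) (Sum.inl k) = c * ((if A k then 1 else if B k then -1 else (0 : ℝ)) *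
              z (Sum.inl k)) := fun k => by rw [Pi.smul_apply, smul_eq_mul]; ring
        have e2 : ∀ j, (if lab j = true then
            (2 * (M : ℝ) - 1) * ((c • z) (Sum.inr (j, 0)) +
              M * (dd σ (fun k => (c • z) (Sum.inl k)) j / 2))
            else dd σ (fun k => (c • z) (Sum.inl k)) j / 2 - (c • z) (Sum.inr (j, 1))) =
            c * (if lab j = true then
            (2 * (M : ℝ) - 1) * (z (Sum.inr (j, 0)) + M * (dd σ (fun k => z (Sum.inl k)) j / 2))
            else dd σ (fun k => z (Sum.inl k)) j / 2 - z (Sum.inr (j, 1))) := by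
          intro j
          rw [hd]
          split_ifs
          · rw [Pi.smul_apply, smul_eq_mul]; ring
          · rw [Pi.smul_apply, smul_eq_mul]; ring
        simp only [e1, e2, ← Finset.mul_sum, RingHom.id_apply, smul_eq_mul]
        ring }
  let s1 : (Idx n m → ℝ) → Fin n × Fin 2 → ℝ := fun z k =>
    if A k then 1 - z (Sum.inl k) else if B k then z (Sum.inl k) else 0
  let s2 : (Idx n m → ℝ) → Fin m → ℝ := fun z j => if lab j = true then
      (2 * (M : ℝ) - 1) * (M + M * (1 - gg σ (fun k => z (Sum.inl k)) j) - z (Sum.inr (j, 0)))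
    else z (Sum.inr (j, 1)) - gg σ (fun k => z (Sum.inl k)) j
  have hM1 : (1 : ℝ) ≤ (M : ℝ) := by exact_mod_cast hM
  -- the slack of a block
  have hblk : ∀ z ∈ PG σ M, ∀ j, 0 ≤ s2 z j ∧ (s2 z j = 0 →
      z (Sum.inr (j, 0)) = pt σ M lab (fun k => z (Sum.inl k)) (Sum.inr (j, 0)) ∧
      z (Sum.inr (j, 1)) = pt σ M lab (fun k => z (Sum.inl k)) (Sum.inr (j, 1))) := by
    intro z hz j
    have hb := hz.2.2 j
    have hg := gg_mem hσ hz.1 j
    simp only [s2, pt, Sum.elim_inr]
    cases hl : lab j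
    · simp only [Bool.false_eq_true, if_false, if_true, Fin.isValue, one_ne_zero]
      have h3 := hb.1 0 hM 1 (Or.inl rfl)
      have h4 := hb.1 0 hM (-1) (Or.inr rfl)
      simp only [Nat.cast_zero] at h3 h4
      refine ⟨by linarith, fun h5 => ⟨by linarith, by linarith⟩⟩
    · simp only [if_true, Fin.isValue, one_ne_zero, if_false]
      have h3 := hb.1 (M - 1) (by omega) 1 (Or.inl rfl)
      rw [Nat.cast_sub (show 1 ≤ M by omega), Nat.cast_one] at h3
      have h4 := hb.2
      have h6 : 0 ≤ (2 * (M : ℝ) - 1) * (M + M * (1 - gg σ (fun k => z (Sum.inl k)) j) -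
          z (Sum.inr (j, 0))) := by linarith
      refine ⟨h6, fun h5 => ?_⟩
      have h7 : M + M * (1 - gg σ (fun k => z (Sum.inl k)) j) - z (Sum.inr (j, 0)) = 0 := by
        rcases mul_eq_zero.1 h5 with h | h
        · exfalso; linarith
        · exact h
      refine ⟨by linarith, ?_⟩
      have h8 : z (Sum.inr (j, 0)) = M + M * (1 - gg σ (fun k => z (Sum.inl k)) j) := by linarith
      rw [h8] at h3
      apply le_antisymm <;> linarith
  refine exposed_of_slack l (∑ k, (if A k then 1 else (0 : ℝ)) +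
    ∑ j, if lab j = true then (2 * (M : ℝ) - 1) * (3 * M / 2) else -(1 / 2))
    (fun z => ∑ k, s1 z k + ∑ j, s2 z j) ?_ ?_ ?_ hne
  · intro z
    change ∑ k, (if A k then 1 else if B k then -1 else (0 : ℝ)) * z (Sum.inl k) +
        ∑ j, (if lab j = true then
            (2 * (M : ℝ) - 1) * (z (Sum.inr (j, 0)) + M * (dd σ (fun k => z (Sum.inl k)) j / 2))
          else dd σ (fun k => z (Sum.inl k)) j / 2 - z (Sum.inr (j, 1))) = _
    rw [show (∑ k, (if A k then 1 else (0 : ℝ)) +
      ∑ j, if lab j = true then (2 * (M : ℝ) - 1) * (3 * M / 2) else -(1 / 2)) -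
      (∑ k, s1 z k + ∑ j, s2 z j) = (∑ k, (if A k then 1 else (0 : ℝ)) - ∑ k, s1 z k) +
      ((∑ j, if lab j = true then (2 * (M : ℝ) - 1) * (3 * M / 2) else -(1 / 2)) -
        ∑ j, s2 z j) by ring, ← Finset.sum_sub_distrib, ← Finset.sum_sub_distrib]
    congr 1
    · refine Finset.sum_congr rfl fun k _ => ?_
      simp only [s1]
      split_ifs <;> ring
    · refine Finset.sum_congr rfl fun j _ => ?_
      simp only [s2]
      split_ifs
      · unfold gg; ring
      · unfold gg; ring
  · intro z hz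
    refine add_nonneg (Finset.sum_nonneg fun k _ => ?_) (Finset.sum_nonneg fun j _ =>
      (hblk z hz j).1)
    simp only [s1]
    split_ifs
    · linarith [hz.1.le_one' k]
    · exact hz.1.nonneg k
    · exact le_rfl
  · intro z
    rw [hS]
    constructor
    · rintro ⟨x, hx, hA, hB, rfl⟩
      refine ⟨pt_mem hM hσ lab hx, ?_⟩
      have e1 : ∀ k, s1 (pt σ M lab x) k = 0 := by
        intro k
        simp only [s1]
        split_ifs with h1 h2
        · have := hA k h1
          change 1 - x k = 0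
          rw [this]; ring
        · exact hB k h2
        · rfl
      have e2 : ∀ j, s2 (pt σ M lab x) j = 0 := by
        intro j
        cases hl : lab j
        · simp [s2, pt, hl]
        · simp [s2, pt, hl]
      simp only [e1, e2, Finset.sum_const_zero, add_zero]
    · rintro ⟨hz, hs⟩
      have h1 : ∀ k ∈ (Finset.univ : Finset (Fin n × Fin 2)), 0 ≤ s1 z k := fun k _ => by
        simp only [s1]
        split_ifs
        · linarith [hz.1.le_one' k]
        · exact hz.1.nonneg k
        · exact le_rfl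
      have h2 : ∀ j ∈ (Finset.univ : Finset (Fin m)), 0 ≤ s2 z j := fun j _ => (hblk z hz j).1
      have h3 := Finset.sum_nonneg h1
      have h4 := Finset.sum_nonneg h2
      have h5 : ∑ k, s1 z k = 0 := by linarith
      have h6 : ∑ j, s2 z j = 0 := by linarith
      rw [Finset.sum_eq_zero_iff_of_nonneg h1] at h5
      rw [Finset.sum_eq_zero_iff_of_nonneg h2] at h6
      refine ⟨fun k => z (Sum.inl k), hz.1, fun k hk => ?_, fun k hk => ?_, ?_⟩
      · have := h5 k (Finset.mem_univ _)
        simp only [s1, if_pos hk] at this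
        linarith
      · have := h5 k (Finset.mem_univ _)
        have hnA : ¬ A k := fun h => hAB k h hk
        simp only [s1, if_neg hnA, if_pos hk] at this
        exact this
      · funext p
        rcases p with k | ⟨j, s⟩
        · rfl
        · have h7 := (hblk z hz j).2 (h6 j (Finset.mem_univ _))
          fin_cases s
          · exact h7.1
          · exact h7.2

theorem v0_extreme (hM : 0 < M) (hσ : ∀ j i, |σ j i| ≤ 1) :
    v0 n m M ∈ (PG σ M).extremePoints ℝ := by
  refine extreme_of_exposed (exposed_face hM hσ (fun _ => False) (fun _ => True) (fun _ => false)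
    (fun k h => h.elim) _ (fun z => ?_) ⟨_, rfl⟩)
  have e : v0 n m M = pt σ M (fun _ => false) fun _ => 0 := by
    funext p
    rcases p with k | ⟨j, s⟩
    · rfl
    · simp only [v0, pt, Sum.elim_inr, gg_const]
      simp
  rw [mem_singleton_iff, e]
  constructor
  · rintro rfl
    exact ⟨_, inX_const le_rfl zero_le_one, by simp, by simp, rfl⟩
  · rintro ⟨x, hx, -, hB, rfl⟩
    rw [show x = fun _ => 0 from funext fun k => hB k trivial]

theorem pt_conv {lab : Fin m → Bool} {x x' : Fin n × Fin 2 → ℝ} {a b : ℝ} (hab : a + b = 1) :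
    a • pt σ M lab x + b • pt σ M lab x' = pt σ M lab (a • x + b • x') := by
  have hg : ∀ j, gg σ (a • x + b • x') j = a * gg σ x j + b * gg σ x' j := by
    intro j
    unfold gg
    rw [dd_add, dd_smul, dd_smul]
    linarith
  funext p
  rcases p with k | ⟨j, s⟩
  · rfl
  · simp only [Pi.add_apply, Pi.smul_apply, smul_eq_mul, pt, Sum.elim_inr, hg]
    have hb : b = 1 - a := by linarith
    subst hb
    split_ifs <;> ring

theorem inX_conv {x x' : Fin n × Fin 2 → ℝ} (h : InX x) (h' : InX x') {a b : ℝ} (ha : 0 ≤ a)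
    (hb : 0 ≤ b) (hab : a + b = 1) : InX (a • x + b • x') := by
  refine ⟨fun k => ?_, fun i s hi => ?_, fun i i' s s' hi => ?_⟩
  · simp only [Pi.add_apply, Pi.smul_apply, smul_eq_mul]
    exact add_nonneg (mul_nonneg ha (h.nonneg k)) (mul_nonneg hb (h'.nonneg k))
  · simp only [Pi.add_apply, Pi.smul_apply, smul_eq_mul]
    nlinarith [mul_le_mul_of_nonneg_left (h.le_one i s hi) ha,
      mul_le_mul_of_nonneg_left (h'.le_one i s hi) hb]
  · simp only [Pi.add_apply, Pi.smul_apply, smul_eq_mul]
    exact add_le_add (mul_le_mul_of_nonneg_left (h.anti i i' s s' hi) ha)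
      (mul_le_mul_of_nonneg_left (h'.anti i i' s s' hi) hb)

/-! ### The path -/

/-- the time when a coordinate is raised -/
def tm (α : Fin n → Bool) (k : Fin n × Fin 2) : ℕ :=
  2 * k.1 + if decide (k.2 = 0) = α k.1 then 0 else 1

/-- the first part at time `τ` -/
noncomputable def xt (α : Fin n → Bool) (τ : ℕ) : Fin n × Fin 2 → ℝ :=
  fun k => if tm α k < τ then 1 else 0

theorem tm_inj (α : Fin n → Bool) : Function.Injective (tm α) := by
  rintro ⟨i, s⟩ ⟨i', s'⟩ h
  unfold tm at h
  simp only at h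
  have h1 : (i : ℕ) = i' := by split_ifs at h <;> omega
  have h2 : i = i' := Fin.ext h1
  subst h2
  congr 1
  fin_cases s <;> fin_cases s' <;> simp at h ⊢
  · revert h
    cases α i <;> simp
  · revert h
    cases α i <;> simp

theorem tm_surj (α : Fin n → Bool) {τ : ℕ} (hτ : τ < 2 * n) : ∃ k, tm α k = τ := by
  have h1 : τ / 2 < n := by omega
  rcases Nat.mod_two_eq_zero_or_one τ with h | h
  · refine ⟨(⟨τ / 2, h1⟩, if α ⟨τ / 2, h1⟩ = true then 0 else 1), ?_⟩
    unfold tm
    cases hα : α ⟨τ / 2, h1⟩ <;> simp <;> omega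
  · refine ⟨(⟨τ / 2, h1⟩, if α ⟨τ / 2, h1⟩ = true then 1 else 0), ?_⟩
    unfold tm
    cases hα : α ⟨τ / 2, h1⟩ <;> simp <;> omega

theorem tm_le (α : Fin n → Bool) (k : Fin n × Fin 2) : 2 * (k.1 : ℕ) ≤ tm α k ∧
    tm α k ≤ 2 * k.1 + 1 := by
  unfold tm
  split_ifs <;> omega

theorem inX_xt (α : Fin n → Bool) (τ : ℕ) : InX (xt α τ) := by
  refine ⟨fun k => ?_, fun i s _ => ?_, fun i i' s s' hi => ?_⟩
  · unfold xt; split_ifs <;> norm_num
  · unfold xt; split_ifs <;> norm_num
  · have h1 := tm_le α (i, s)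
    have h2 := tm_le α (i', s')
    simp only at h1 h2
    unfold xt
    split_ifs with h3 h4
    · exact le_rfl
    · omega
    · exact zero_le_one
    · exact le_rfl

theorem gg_xt {α : Fin n → Bool} {j : Fin m} {i : Fin n}
    (h : (σ j i = 1 ∧ α i = true) ∨ (σ j i = -1 ∧ α i = false)) :
    gg σ (xt α (2 * i + 1)) j = 1 := by
  have h1 : dd σ (xt α (2 * i + 1)) j = 1 := by
    unfold dd
    rw [Finset.sum_eq_single i]
    · rcases h with ⟨h1, h2⟩ | ⟨h1, h2⟩
      · rw [h1]
        simp [xt, tm, h2]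
      · rw [h1]
        simp [xt, tm, h2]
    · intro i' _ hne
      have hne' : (i' : ℕ) ≠ i := fun h => hne (Fin.ext h)
      have e : xt α (2 * i + 1) (i', 0) = xt α (2 * i + 1) (i', 1) := by
        have h3 := tm_le α (i', 0)
        have h4 := tm_le α (i', 1)
        simp only at h3 h4
        unfold xt
        rcases Nat.lt_or_gt_of_ne hne' with h5 | h5
        · rw [if_pos (by omega), if_pos (by omega)]
        · rw [if_neg (by omega), if_neg (by omega)]
      rw [e, sub_self, mul_zero]
    · exact fun h => absurd (Finset.mem_univ _) h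
  unfold gg
  rw [h1]
  norm_num

/-- the labels at time `τ` -/
def labt (ch : Fin m → Fin n) (τ : ℕ) (j : Fin m) : Bool := decide (2 * (ch j : ℕ) + 1 ≤ τ)

theorem pt_lab {α : Fin n → Bool} {ch : Fin m → Fin n}
    (h : ∀ j, (σ j (ch j) = 1 ∧ α (ch j) = true) ∨ (σ j (ch j) = -1 ∧ α (ch j) = false)) (τ : ℕ) :
    pt σ M (labt ch τ) (xt α (τ + 1)) = pt σ M (labt ch (τ + 1)) (xt α (τ + 1)) := by
  funext p
  rcases p with k | ⟨j, s⟩
  · rfl
  · simp only [pt, Sum.elim_inr, labt, decide_eq_true_iff]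
    by_cases h1 : 2 * (ch j : ℕ) + 1 ≤ τ
    · have h3 : 2 * (ch j : ℕ) + 1 ≤ τ + 1 := by omega
      simp only [h1, h3]
    · by_cases h2 : 2 * (ch j : ℕ) + 1 = τ + 1
      · have h3 : 2 * (ch j : ℕ) + 1 ≤ τ + 1 := by omega
        have h4 : gg σ (xt α (τ + 1)) j = 1 := h2 ▸ gg_xt (h j)
        simp only [h1, h3, h4, if_true, if_false]
        split_ifs <;> ring
      · have h3 : ¬ 2 * (ch j : ℕ) + 1 ≤ τ + 1 := by omega
        simp only [h1, h3]

/-- **The upper bound**: a satisfying assignment gives a short monotone path. -/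
theorem short_path (hM : 0 < M) (hσ : ∀ j i, |σ j i| ≤ 1)
    (h : ∃ α : Fin n → Bool, ∀ j, ∃ i, (σ j i = 1 ∧ α i = true) ∨ (σ j i = -1 ∧ α i = false)) :
    ∃ u : ℕ → Idx n m → ℝ, (∀ k ≤ 2 * n, u k ∈ (PG σ M).extremePoints ℝ) ∧ u 0 = v0 n m M ∧
      (∀ k < 2 * n, IsExposed ℝ (PG σ M) (segment ℝ (u k) (u (k + 1))) ∧
        CC M (u k) < CC M (u (k + 1))) ∧ ∀ y ∈ PG σ M, CC M y ≤ CC M (u (2 * n)) := by
  obtain ⟨α, hα⟩ := h
  choose ch hch using hα
  refine ⟨fun τ => pt σ M (labt ch τ) (xt α τ), fun τ _ => ?_, ?_, fun τ hτ => ⟨?_, ?_⟩, ?_⟩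
  · refine extreme_of_exposed (exposed_face hM hσ (fun k => tm α k < τ) (fun k => τ ≤ tm α k)
      (labt ch τ) (fun k h1 h2 => by omega) _ (fun z => ?_) ⟨_, rfl⟩)
    rw [mem_singleton_iff]
    constructor
    · rintro rfl
      exact ⟨_, inX_xt α τ, fun k hk => if_pos hk, fun k hk => if_neg (by omega), rfl⟩
    · rintro ⟨x, hx, hA, hB, rfl⟩
      rw [show x = xt α τ from funext fun k => by
        unfold xt
        split_ifs with hk
        · exact hA k hk
        · exact hB k (by omega)]
  · funext p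
    rcases p with k | ⟨j, s⟩
    · simp [pt, xt, v0]
    · have e : xt α 0 = fun _ => 0 := by funext k; simp [xt]
      simp only [pt, v0, Sum.elim_inr, labt, e, gg_const]
      simp
  · simp only
    rw [← pt_lab hch τ]
    obtain ⟨e, he⟩ := tm_surj α hτ
    refine exposed_face hM hσ (fun k => tm α k < τ) (fun k => τ < tm α k)
      (labt ch τ) (fun k h1 h2 => by omega) _ (fun z => ?_) ⟨_, left_mem_segment ℝ _ _⟩
    constructor
    · rintro ⟨a, b, ha, hb, hab, rfl⟩
      refine ⟨_, inX_conv (inX_xt α τ) (inX_xt α (τ + 1)) ha hb hab, fun k hk => ?_, fun k hk => ?_,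
        pt_conv hab⟩
      · simp only [Pi.add_apply, Pi.smul_apply, smul_eq_mul, xt]
        rw [if_pos hk, if_pos (by omega)]
        linarith
      · simp only [Pi.add_apply, Pi.smul_apply, smul_eq_mul, xt]
        rw [if_neg (by omega), if_neg (by omega)]
        ring
    · rintro ⟨x, hx, hA, hB, rfl⟩
      refine ⟨1 - x e, x e, by linarith [hx.le_one' e], hx.nonneg e, by ring, ?_⟩
      rw [pt_conv (by ring)]
      congr 1
      funext k
      simp only [Pi.add_apply, Pi.smul_apply, smul_eq_mul, xt]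
      rcases lt_trichotomy (tm α k) τ with hk | hk | hk
      · rw [if_pos hk, if_pos (by omega), hA k hk]
        ring
      · have : k = e := tm_inj α (hk.trans he.symm)
        subst this
        rw [if_neg (by omega), if_pos (by omega)]
        ring
      · rw [if_neg (by omega), if_neg (by omega), hB k hk]
        ring
  · simp only
    refine cc_lt hM hσ (pt_mem hM hσ _ (inX_xt α τ)) (pt_mem hM hσ _ (inX_xt α (τ + 1))) ?_
    obtain ⟨e, he⟩ := tm_surj α hτ
    change ∑ k, xt α τ k + 1 ≤ ∑ k, xt α (τ + 1) k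
    rw [← Finset.add_sum_erase _ (fun k => xt α τ k) (Finset.mem_univ e),
      ← Finset.add_sum_erase _ (fun k => xt α (τ + 1) k) (Finset.mem_univ e)]
    have h1 : xt α τ e = 0 := if_neg (by omega)
    have h2 : xt α (τ + 1) e = 1 := if_pos (by omega)
    have h3 : ∑ k ∈ Finset.univ.erase e, xt α τ k ≤ ∑ k ∈ Finset.univ.erase e, xt α (τ + 1) k := by
      refine Finset.sum_le_sum fun k _ => ?_
      unfold xt
      split_ifs with a b
      · exact le_rfl
      · omega
      · exact zero_le_one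
      · exact le_rfl
    linarith
  · intro y hy
    have e : pt σ M (labt ch (2 * n)) (xt α (2 * n)) = vT n m M := by
      have e1 : xt α (2 * n) = fun _ => 1 := by
        funext k
        have := tm_le α k
        have := k.1.2
        exact if_pos (by omega)
      funext p
      rcases p with k | ⟨j, s⟩
      · rw [e1]; rfl
      · have h1 : labt ch (2 * n) j = true := by
          have := (ch j).2
          simp only [labt, decide_eq_true_iff]
          omega
        simp only [pt, vT, Sum.elim_inr, h1, e1, gg_const, if_true]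
        split_ifs <;> ring
    simp only
    rw [e]
    have h1 := cc_le hM hσ hy
    have h3 : 0 ≤ ∑ j, ((M : ℝ) ^ 2 - y (Sum.inr (j, 1)) -
        ((M : ℝ) ^ 2 - 1) * gg σ (fun k => y (Sum.inl k)) j) := Finset.sum_nonneg fun j _ => by
      have := (hy.2.2 j).2
      linarith
    have h4 := sum_le_card _ hy.1
    linarith

end Pool.Agent.X239.GP
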